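import Pool.Agent.Lib.TWN.NB1
import Pool.Agent.Lib.TW.HRLUa
import Pool.Agent.Lib.D2P.H0
import Pool.Agent.Lib.LU1_h15.Base_G0s

/-!
# TANK W, N: fields without bounded derivations

The row NB2 (`exists_gen_of_limAlg`) is a hypothesis in this file.
-/

set_option autoImplicit false

open Polynomial

namespace Pool.Agent.TW

open Pool.Agent.H15JM (RVal)
open Pool.Agent.LU1 (VPos adj)
open Pool.Agent.LUC (Cl)
open Pool.Agent.D2 (Ctx0)
open Pool.Agent.D2P (hen)

universe u

variable {k Ω : Type u} [Field k] [Field Ω] [Algebra k Ω] {v : RVal Ω} {r : ℕ}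

namespace NBa

/-- Elements of positive value. -/
theorem Full.exists_pos (h : Ctx k v r) {L : IntermediateField k Ω} (hL : Full v L) :
    ∃ a ∈ L, a ≠ 0 ∧ 0 < v a := by
  obtain ⟨x, hx, hxi, -⟩ := hL.exists_span h
  have h1 := hxi.ne_zero (⟨0, h.rpos⟩ : Fin r)
  rcases lt_or_gt_of_ne h1 with h2 | h2
  · refine ⟨(x ⟨0, h.rpos⟩)⁻¹, inv_mem (hx _).1, inv_ne_zero (hx _).2, ?_⟩
    rw [v.map_inv (hx _).2]
    linarith
  · exact ⟨x ⟨0, h.rpos⟩, (hx _).1, (hx _).2, h2⟩

/-- The values of `L(w)`, `w` a limit of elements algebraic over `L`. -/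
theorem full_of_limAlg {L : IntermediateField k Ω} {w : Ω} (hw : LimAlg v L w)
    (hF : Full v (adj L w)) : Full v L := by
  intro g hg
  obtain ⟨m, hm, c, hc, hc0, hcv⟩ := hF g hg
  have h1 : c ∈ Cl v (acl L).toSubfield := by
    have h2 : adj L w ≤ D2P.clI v (acl L) := by
      refine sup_le ?_ ?_
      · intro a ha
        exact D2P.mem_clI.2 (LUC.Cl.subset (le_acl L ha))
      · rw [IntermediateField.adjoin_le_iff]
        rintro _ rfl
        rw [SetLike.mem_coe, D2P.mem_clI]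
        intro b
        obtain ⟨α, hα, hb⟩ := hw b
        exact ⟨α, mem_acl.2 hα, hb⟩
    exact D2P.mem_clI.1 (h2 hc)
  obtain ⟨a, ha, ha0, hav, -⟩ := LUC.Cl.exists_val h1 0 hc0
  obtain ⟨f, hf0, m', hm', hfv⟩ := LU1.comm_value (v := v) L a ha0 (mem_acl.1 ha)
  refine ⟨m' * m, Nat.mul_pos hm' hm, f, f.2, hf0, ?_⟩
  rw [hfv, hav, hcv]
  push_cast
  ring

end NBa

open NBa in
theorem hrone_of_not_bd_of (p : ℕ) [Fact p.Prime] [CharP k p] [IsAlgClosed k] [IsAlgClosed Ω]
    (hNB2 : ∀ {L : IntermediateField k Ω}, (∃ a ∈ L, a ≠ 0 ∧ 0 < v a) → ∀ {w θ : Ω},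
      Transcendental L w → IsSeparable (adj L w) θ → LimAlg v L w →
      (∀ g : Ω, IsAlgebraic (adj L w) g) →
      ∃ z : Ω, Transcendental L z ∧ LimAlg v L z ∧ hen v (adj (adj L w) θ) = hen v (adj L z))
    (h : Ctx k v r) {E : IntermediateField k Ω} (hE : E.FG) (hfull : Full v E)
    (hΩ : ∀ g : Ω, IsAlgebraic E g) (hbd : ¬ BD p v E) :
    ∃ (L : IntermediateField k Ω) (z : Ω), L.FG ∧ Full v L ∧ Transcendental L z ∧
      LimAlg v L z ∧ hen v E = hen v (adj L z) := by
  classical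
  have h0 := h.toCtx0
  haveI : CharP Ω p := charP_of_injective_algebraMap (algebraMap k Ω).injective p
  obtain ⟨n, t, ht⟩ := exists_PBasis (p := p) hE
  obtain ⟨htr, hai, hsep⟩ := ht.trdeg p hE
  -- a primitive element
  obtain ⟨S, hS⟩ := hE
  have hSE : ∀ s ∈ S, s ∈ E := by
    intro s hs
    rw [← hS]
    exact IntermediateField.subset_adjoin k _ hs
  have hkE : kr k t ≤ E := by
    rw [IntermediateField.adjoin_le_iff]
    rintro _ ⟨i, rfl⟩
    exact ht.mem i
  obtain ⟨θ, hθ, hEθ'⟩ := D2P.H0aux.exists_prim (T := kr k t) S fun s hs => hsep s (hSE s hs)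
  have hEθ : adj (kr k t) θ = E := by
    rw [hEθ', hS]
    exact sup_eq_right.2 hkE
  have hkfg : (kr k t).FG := HRLU.kr_fg t
  -- some `t i` is a limit
  obtain ⟨i, hi⟩ : ∃ i, LimAlg v (IntermediateField.adjoin k (t '' {j | j ≠ i})) (t i) := by
    by_contra hcon
    push Not at hcon
    apply hbd
    rw [← hEθ]
    exact BD.sep p h0 hkfg (bd_of_not_limAlg p h0 hai hcon) hθ
  set L := IntermediateField.adjoin k (t '' {j | j ≠ i}) with hL
  have hLfg : L.FG := IntermediateField.fg_adjoin_of_finite ((Set.toFinite _).image _)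
  have hadj : adj L (t i) = kr k t := by
    rw [adj, hL, ← IntermediateField.adjoin_union]
    congr 1
    ext x
    constructor
    · rintro (⟨j, -, rfl⟩ | rfl)
      · exact ⟨j, rfl⟩
      · exact ⟨i, rfl⟩
    · rintro ⟨j, rfl⟩
      by_cases hj : j = i
      · exact Or.inr (by rw [hj]; rfl)
      · exact Or.inl ⟨j, hj, rfl⟩
  have hw : Transcendental L (t i) := by
    rw [hL, IntermediateField.transcendental_adjoin_iff]
    exact hai.transcendental_adjoin (fun h1 => h1 rfl)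
  have hfull' : Full v (adj L (t i)) := by
    rw [hadj]
    intro g hg
    obtain ⟨m, hm, c, hc, hc0, hcv⟩ := hfull g hg
    obtain ⟨f, hf0, m', hm', hfv⟩ := LU1.comm_value (v := v) (kr k t) c hc0
      (hsep c hc).isIntegral.isAlgebraic
    refine ⟨m' * m, Nat.mul_pos hm' hm, f, f.2, hf0, ?_⟩
    rw [hfv, hcv]
    push_cast
    ring
  have hLfull : Full v L := full_of_limAlg hi hfull'
  have hΩ' : ∀ g : Ω, IsAlgebraic (adj L (t i)) g := by
    intro g
    rw [hadj]
    exact D2P.isAlgebraic_trans (fun a ha => (hsep a ha).isIntegral.isAlgebraic) (hΩ g)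
  obtain ⟨z, hz, hzl, hh⟩ := hNB2 (Full.exists_pos h hLfull) hw (by rw [hadj]; exact hθ) hi hΩ'
  refine ⟨L, z, hLfg, hLfull, hz, hzl, ?_⟩
  rw [← hh, hadj, hEθ]

end Pool.Agent.TW
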