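import Pool.Agent.Lib.TWN.Defs
import Pool.Agent.Lib.TW.Tr
import Pool.Agent.Lib.D2P.A2m

/-!
# TANK W (TWN), row ROOM
-/

set_option autoImplicit false

namespace Pool.Agent.TW

open Pool.Agent.H15JM (RVal)
open Pool.Agent.LU1 (VPos adj)
open Pool.Agent.D2 (Ctx0)

universe u

variable {k Ω : Type u} [Field k] [Field Ω] [Algebra k Ω] {v : RVal Ω} {r : ℕ}

/-- ROW ROOM. -/
theorem Room.of_limAlg {L : IntermediateField k Ω} {z : Ω} (hpos : ∃ a ∈ L, a ≠ 0 ∧ 0 < v a)
    (hz : Transcendental L z) (h : LimAlg v L z) : Room v L z := by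
  classical
  obtain ⟨a, haL, ha0, hav⟩ := hpos
  refine ⟨{a}, fun x hx => ?_, fun S hS => ?_⟩
  · rw [Finset.mem_singleton] at hx
    subst hx
    exact ⟨haL, ha0⟩
  obtain ⟨N, hN⟩ := exists_nat_gt (∑ β ∈ S, |v (z - β)| / v a)
  obtain ⟨α, hα, hge⟩ := h (N * v a + 1)
  have hne : z - α ≠ 0 := by
    intro h0
    rw [sub_eq_zero] at h0
    exact hz (h0 ▸ hα)
  have hprod : v (∏ x ∈ ({a} : Finset Ω), x ^ (N : ℤ)) = N * v a := by
    rw [Finset.prod_singleton, zpow_natCast, v.map_pow ha0]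
  refine ⟨fun _ => (N : ℤ), α, hα, fun β hβ => ?_, ?_⟩
  · rw [hprod]
    have h1 : |v (z - β)| / v a ≤ ∑ β ∈ S, |v (z - β)| / v a :=
      Finset.single_le_sum (f := fun β => |v (z - β)| / v a)
        (fun β _ => div_nonneg (abs_nonneg _) hav.le) hβ
    have h2 : |v (z - β)| / v a < N := lt_of_le_of_lt h1 hN
    rw [div_lt_iff₀ hav] at h2
    exact lt_of_le_of_lt (le_abs_self _) h2
  · rw [hprod]
    have := hge hne
    linarith

namespace RoomAux

/-- The values of the monomials in two elements with independent values are dense. -/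
theorem exists_between {x y : Ω} (hx : x ≠ 0) (hy : y ≠ 0)
    (hind : ∀ m n : ℤ, (m : ℝ) * v x + n * v y = 0 → m = 0 ∧ n = 0) {a b : ℝ} (hab : a < b) :
    ∃ m n : ℤ, a < v (x ^ m * y ^ n) ∧ v (x ^ m * y ^ n) < b := by
  have hval : ∀ m n : ℤ, v (x ^ m * y ^ n) = m * v x + n * v y := fun m n => by
    rw [v.map_mul (zpow_ne_zero _ hx) (zpow_ne_zero _ hy), v.map_zpow hx, v.map_zpow hy]
  rcases AddSubgroup.dense_or_cyclic (AddSubgroup.closure {v x, v y}) with h | ⟨g, hg⟩
  · obtain ⟨c, hc, hc1⟩ := h.exists_between hab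
    obtain ⟨m, n, hmn⟩ := AddSubgroup.mem_closure_pair.1 hc
    refine ⟨m, n, ?_⟩
    rw [hval]
    rw [zsmul_eq_mul, zsmul_eq_mul] at hmn
    rw [hmn]
    exact hc1
  · have h1 : v x ∈ AddSubgroup.closure {g} := by
      rw [← hg]
      exact AddSubgroup.subset_closure (by simp)
    have h2 : v y ∈ AddSubgroup.closure {g} := by
      rw [← hg]
      exact AddSubgroup.subset_closure (by simp)
    obtain ⟨m, hm⟩ := AddSubgroup.mem_closure_singleton.1 h1
    obtain ⟨n, hn⟩ := AddSubgroup.mem_closure_singleton.1 h2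
    rw [zsmul_eq_mul] at hm hn
    exfalso
    by_cases hn0 : n = 0
    · have h3 := hind 0 1 (by rw [← hn, hn0]; push_cast; ring)
      exact one_ne_zero h3.2
    · have h3 := hind n (-m) (by rw [← hm, ← hn]; push_cast; ring)
      exact hn0 h3.1

end RoomAux

/-- ROW ROOM.  For rational rank at least two (`z` not attained: residue field `k`, `L` full). -/
theorem Room.of_rank [IsAlgClosed k] [IsAlgClosed Ω] (h : Ctx k v r) (hr : 2 ≤ r)
    {L : IntermediateField k Ω} (hfull : Full v L) {z : Ω} (hz : Transcendental L z) :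
    Room v L z := by
  classical
  have hzA : ∀ β : Ω, IsAlgebraic L β → z - β ≠ 0 := by
    intro β hβ h0
    rw [sub_eq_zero] at h0
    exact hz (h0 ▸ hβ)
  -- no best approximation
  have hbetter : ∀ β : Ω, IsAlgebraic L β → ∃ α : Ω, IsAlgebraic L α ∧ v (z - β) < v (z - α) := by
    intro β hβ
    have hx0 := hzA β hβ
    obtain ⟨m, hm, c, hcL, hc0, hc⟩ := hfull (z - β) hx0
    obtain ⟨y, hy⟩ := IsAlgClosed.exists_pow_nat_eq c hm
    have hy0 : y ≠ 0 := by
      rintro rfl
      rw [zero_pow hm.ne'] at hy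
      exact hc0 hy.symm
    have hyL : IsAlgebraic L y := by
      refine IsAlgebraic.of_pow hm ?_
      rw [hy]
      exact D2P.isAlgebraic_of_mem hcL
    have hm' : (0 : ℝ) < m := by exact_mod_cast hm
    have hvy : v y = v (z - β) := by
      rw [← hy, v.map_pow hy0] at hc
      exact mul_left_cancel₀ hm'.ne' hc
    have hq : v ((z - β) / y) = 0 := by rw [v.map_div hx0 hy0, hvy, sub_self]
    obtain ⟨d, -, hd⟩ := h.res _ (div_ne_zero hx0 hy0) hq
    have hαL : IsAlgebraic L (β + algebraMap k Ω d * y) :=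
      hβ.add ((D2P.isAlgebraic_of_mem (L.algebraMap_mem d)).mul hyL)
    refine ⟨β + algebraMap k Ω d * y, hαL, ?_⟩
    have hne := hzA _ hαL
    have heq : z - (β + algebraMap k Ω d * y) = ((z - β) / y - algebraMap k Ω d) * y := by
      field_simp
      ring
    rw [heq] at hne ⊢
    have h1 := left_ne_zero_of_mul hne
    rw [v.map_mul h1 hy0, hvy]
    have h2 := hd h1
    linarith
  obtain ⟨x, hx, hxi, -⟩ := hfull.exists_span h
  have h0r : 0 < r := by omega
  set i₀ : Fin r := ⟨0, h0r⟩ with hi₀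
  set i₁ : Fin r := ⟨1, by omega⟩ with hi₁
  have hi01 : i₀ ≠ i₁ := by
    intro h0
    have := congrArg Fin.val h0
    simp [hi₀, hi₁] at this
  have hx01 : x i₀ ≠ x i₁ := by
    intro h0
    exact hi01 (hxi.injective (by simp only [h0]))
  have hind : ∀ m n : ℤ, (m : ℝ) * v (x i₀) + n * v (x i₁) = 0 → m = 0 ∧ n = 0 := by
    intro m n hmn
    have h1 : LinearIndependent ℚ ![v (x i₀), v (x i₁)] := by
      have h2 := hxi.comp ![i₀, i₁] (by
        intro a b hab
        fin_cases a <;> fin_cases b <;> simp_all)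
      convert h2 using 1
      ext a
      fin_cases a <;> rfl
    have h3 := LinearIndependent.pair_iff.1 h1 (m : ℚ) (n : ℚ) (by
      rw [Rat.smul_def, Rat.smul_def]
      push_cast
      exact hmn)
    exact ⟨by exact_mod_cast h3.1, by exact_mod_cast h3.2⟩
  refine ⟨{x i₀, x i₁}, fun y hy => ?_, fun S hS => ?_⟩
  · rw [Finset.mem_insert, Finset.mem_singleton] at hy
    rcases hy with rfl | rfl
    · exact hx i₀
    · exact hx i₁
  -- the best element of `S`
  have hS' : ∀ β ∈ insert 0 S, IsAlgebraic L β := by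
    intro β hβ
    rw [Finset.mem_insert] at hβ
    rcases hβ with rfl | hβ
    · exact isAlgebraic_zero
    · exact hS β hβ
  obtain ⟨β₀, hβ₀, hmax⟩ := (insert 0 S).exists_max_image (fun β => v (z - β))
    (Finset.insert_nonempty 0 S)
  obtain ⟨α, hα, hlt⟩ := hbetter β₀ (hS' β₀ hβ₀)
  obtain ⟨m, n, h1, h2⟩ := RoomAux.exists_between (hx i₀).2 (hx i₁).2 hind hlt
  have hprod : ∏ y ∈ ({x i₀, x i₁} : Finset Ω), y ^ (if y = x i₀ then m else n) =
      x i₀ ^ m * x i₁ ^ n := by
    rw [Finset.prod_insert (by rwa [Finset.mem_singleton]), Finset.prod_singleton, if_pos rfl,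
      if_neg (Ne.symm hx01)]
  refine ⟨fun y => if y = x i₀ then m else n, α, hα, fun β hβ => ?_, ?_⟩
  · rw [hprod]
    exact lt_of_le_of_lt (hmax β (Finset.mem_insert_of_mem hβ)) h1
  · rw [hprod]
    exact h2

end Pool.Agent.TW
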