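import Pool.Agent.Lib.TWN.Fin2a
import Pool.Agent.Lib.TWN.NBa
import Pool.Agent.Lib.TWN.NB2
import Pool.Agent.Lib.TWN.Room

/-!
# TANK W, N: the real case of defect two (row FIN2)
-/

set_option autoImplicit false

open Polynomial

namespace Pool.Agent.TW

open Pool.Agent.H15JM (RVal)
open Pool.Agent.LU1 (VPos adj)
open Pool.Agent.LUC (LUs)
open Pool.Agent.D2 (Ctx0)
open Pool.Agent.D2P (hen)

universe u

variable {k Ω : Type u} [Field k] [Field Ω] [Algebra k Ω] {v : RVal Ω} {r : ℕ}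

/-- The fields of defect two without bounded derivations. -/
theorem lus_of_not_bd (p : ℕ) [Fact p.Prime] [CharP k p] [IsAlgClosed k] [IsAlgClosed Ω]
    (h : Ctx k v r) {E : IntermediateField k Ω} (hE : E.FG) (hΩ : ∀ g : Ω, IsAlgebraic E g)
    (htr : Algebra.trdeg k E = (r + 2 : ℕ)) (hbd : ¬ BD p v E) :
    LUs v (algebraMap k Ω).range E.toSubfield := by
  obtain ⟨N, z, hN, hNf, hz, hlim, hh⟩ := hrone_of_not_bd_of p
    (fun hpos _ _ hw hθ hl hΩ => exists_gen_of_limAlg h.toCtx0 hpos hw hθ hl hΩ) h hE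
    (full_of_alg hΩ) hΩ hbd
  exact lus_two_of_room p h hE hΩ htr hN hNf hz hh (Room.of_limAlg (hNf.exists_pos h) hz hlim)

/-- ROW FIN2.  The real case of defect two. -/
theorem lus_two (p : ℕ) [Fact p.Prime] [CharP k p] [IsAlgClosed k] [IsAlgClosed Ω]
    (h : Ctx k v r) (hHR : ∀ E : IntermediateField k Ω, E.FG → Full v E →
      Algebra.trdeg k E = (r + 2 : ℕ) → BD p v E → HRone v E)
    (hone : r = 1 → ∀ E : IntermediateField k Ω, E.FG → Full v E →
      Algebra.trdeg k E = (r + 2 : ℕ) → BD p v E → LUs v (algebraMap k Ω).range E.toSubfield)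
    {E : IntermediateField k Ω} (hE : E.FG) (hΩ : ∀ g : Ω, IsAlgebraic E g)
    (htr : Algebra.trdeg k E = (r + 2 : ℕ)) : LUs v (algebraMap k Ω).range E.toSubfield := by
  by_cases hbd : BD p v E
  · by_cases hr : r = 1
    · exact hone hr E hE (full_of_alg hΩ) htr hbd
    · have hr2 : 2 ≤ r := by
        have := h.rpos
        omega
      obtain ⟨N, z, hN, hNf, hz, hh⟩ := hHR E hE (full_of_alg hΩ) htr hbd
      exact lus_two_of_room p h hE hΩ htr hN hNf hz hh (Room.of_rank h hr2 hNf hz)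
  · exact lus_of_not_bd p h hE hΩ htr hbd

end Pool.Agent.TW
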