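import Pool.Agent.Lib.LUC.F2
import Pool.Agent.Lib.LUC.E6

/-!
# TANK W, N, row LURS: from abstract fields to subfields of `Ω`
-/

set_option autoImplicit false

namespace Pool.Agent.TW

open Pool.Agent.H15JM (RVal)
open Pool.Agent.LUC (LUs LUrV)

universe u

variable {k Ω : Type u} [Field k] [Field Ω] [Algebra k Ω]

/-- From abstract fields to subfields of `Ω`. -/
theorem lus_of_lur {W : RVal Ω} (hk : ∀ c : k, W.Ge 0 (algebraMap k Ω c))
    {K : IntermediateField k Ω} {V : ValuationSubring K} (hV : ∀ f : K, f ∈ V ↔ W.Ge 0 (f : Ω))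
    (hL : LU2G.LUr k V) : LUs W (algebraMap k Ω).range K.toSubfield := by
  have h1 : LUrV k V := LUC.lurV_of_lur hL
  have h2 := LUrV.lus (K := K) (Ω := Ω) (w := W) (V := V) hV (fun c => (hV _).2 (hk c)) h1
  have h3 : (algebraMap K Ω).fieldRange = K.toSubfield := by
    ext f
    constructor
    · rintro ⟨g, rfl⟩
      exact g.2
    · intro hf
      exact ⟨⟨f, hf⟩, rfl⟩
  rwa [h3] at h2

end Pool.Agent.TW
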