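import Pool.Agent.Lib.JM_H15.Basic
import Pool.Agent.Lib.LU2_h15.RankOneA

/-!
# TANK W (TWN), row LUW: the valuation ring of a real valuation in a subfield
-/

set_option autoImplicit false

open Polynomial

namespace Pool.Agent.TW

open Pool.Agent.H15JM (RVal)
open Pool.Agent.LU2 (IsR1 IndVal IndRes DefLE)

universe u

namespace LUW

variable {k Ω : Type u} [Field k] [Field Ω] [Algebra k Ω]

/-- The elements of value `≥ 0` of `K`. -/
def vring (W : RVal Ω) (K : IntermediateField k Ω) : ValuationSubring K where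
  carrier := {f | W.Ge 0 (f : Ω)}
  mul_mem' := by
    intro a b ha hb
    have h := RVal.Ge.mul (x := (a : Ω)) (y := (b : Ω)) ha hb
    rw [add_zero] at h
    exact h
  one_mem' := fun _ => by
    rw [OneMemClass.coe_one, W.map_one]
  add_mem' := by
    intro a b ha hb
    exact RVal.Ge.add (x := (a : Ω)) (y := (b : Ω)) ha hb
  zero_mem' := RVal.Ge.zero
  neg_mem' := by
    intro a ha
    exact RVal.Ge.neg (x := (a : Ω)) ha
  mem_or_inv_mem' := by
    intro f
    by_cases hf : (f : Ω) = 0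
    · exact Or.inl fun h => absurd hf h
    · rcases le_total 0 (W f) with h | h
      · exact Or.inl fun _ => h
      · refine Or.inr fun _ => ?_
        have h1 : ((f⁻¹ : K) : Ω) = (f : Ω)⁻¹ := rfl
        rw [h1, W.map_inv hf]
        linarith

theorem mem_vring {W : RVal Ω} {K : IntermediateField k Ω} {f : K} :
    f ∈ vring W K ↔ W.Ge 0 (f : Ω) := Iff.rfl

theorem val_eq_one {W : RVal Ω} {K : IntermediateField k Ω} {f : K}
    (h : (vring W K).valuation f = 1) : f ≠ 0 ∧ W (f : Ω) = 0 := by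
  have hf : f ≠ 0 := by
    rintro rfl
    rw [map_zero] at h
    exact zero_ne_one h
  have hf' : (f : Ω) ≠ 0 := fun h0 => hf (Subtype.ext h0)
  have h1 : f ∈ vring W K := ((vring W K).valuation_le_one_iff f).1 h.le
  have h2 : f⁻¹ ∈ vring W K := by
    refine ((vring W K).valuation_le_one_iff _).1 ?_
    rw [map_inv₀, h, inv_one]
  have h3 : W.Ge 0 ((f⁻¹ : K) : Ω) := h2
  have h4 : ((f⁻¹ : K) : Ω) = (f : Ω)⁻¹ := rfl
  rw [h4] at h3
  have h5 := h3 (inv_ne_zero hf')
  rw [W.map_inv hf'] at h5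
  have h6 : W.Ge 0 (f : Ω) := h1
  have h7 := h6 hf'
  exact ⟨hf, by linarith⟩

theorem val_lt_one {W : RVal Ω} {K : IntermediateField k Ω} {f : K} (hf : f ≠ 0)
    (h : (vring W K).valuation f < 1) : 0 < W (f : Ω) := by
  have hf' : (f : Ω) ≠ 0 := fun h0 => hf (Subtype.ext h0)
  by_contra hno
  push Not at hno
  have h2 : f⁻¹ ∈ vring W K := by
    intro _
    have h4 : ((f⁻¹ : K) : Ω) = (f : Ω)⁻¹ := rfl
    rw [h4, W.map_inv hf']
    linarith
  have h3 := ((vring W K).valuation_le_one_iff _).2 h2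
  rw [map_inv₀] at h3
  have h5 : (vring W K).valuation f ≠ 0 := by
    rw [Ne, map_eq_zero]
    exact hf
  have h6 := mul_le_mul_right h3 ((vring W K).valuation f)
  rw [mul_inv_cancel₀ h5, mul_one] at h6
  exact absurd h (not_lt.2 h6)

theorem isR1_vring {W : RVal Ω} {K : IntermediateField k Ω} {a : Ω} (ha : a ∈ K) (ha0 : a ≠ 0)
    (hav : 0 < W a) : IsR1 (vring W K) := by
  constructor
  · intro h
    have h1 : (⟨a, ha⟩ : K)⁻¹ ∈ vring W K := by
      rw [h]
      exact ValuationSubring.mem_top _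
    have h2 : W.Ge 0 (((⟨a, ha⟩ : K)⁻¹ : K) : Ω) := h1
    have h4 : (((⟨a, ha⟩ : K)⁻¹ : K) : Ω) = a⁻¹ := rfl
    rw [h4] at h2
    have h5 := h2 (inv_ne_zero ha0)
    rw [W.map_inv ha0] at h5
    linarith
  · intro V' hV'
    by_cases hne : V' ≤ vring W K
    · exact Or.inl (le_antisymm hne hV')
    · right
      obtain ⟨f, hfV, hf⟩ : ∃ f ∈ V', f ∉ vring W K := by
        by_contra hno
        push Not at hno
        exact hne hno
      have hf1 : ¬ W.Ge 0 (f : Ω) := hf
      have hf0 : (f : Ω) ≠ 0 := fun h0 => hf1 fun h1 => absurd h0 h1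
      have hfneg : W (f : Ω) < 0 := by
        by_contra hno
        exact hf1 fun _ => not_lt.1 hno
      rw [eq_top_iff]
      intro g _
      by_cases hg : (g : Ω) = 0
      · have : g = 0 := Subtype.ext hg
        rw [this]
        exact V'.zero_mem
      obtain ⟨n, hn⟩ := exists_nat_gt (-(W (g : Ω)) / -(W (f : Ω)))
      have hn' : -(W (g : Ω)) < n * -(W (f : Ω)) := by
        rwa [div_lt_iff₀ (by linarith)] at hn
      have hfK : f ≠ 0 := fun h0 => hf0 (by rw [h0]; rfl)
      have hmem : g / f ^ n ∈ vring W K := by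
        intro _
        have h4 : ((g / f ^ n : K) : Ω) = (g : Ω) / (f : Ω) ^ n := rfl
        rw [h4, W.map_div hg (pow_ne_zero _ hf0), W.map_pow hf0]
        linarith
      have h6 : g = g / f ^ n * f ^ n := by
        rw [div_mul_cancel₀ _ (pow_ne_zero _ hfK)]
      rw [h6]
      exact V'.mul_mem _ _ (hV' hmem) (pow_mem hfV n)

/-- The elements with independent values. -/
theorem indVal_vring {W : RVal Ω} {K : IntermediateField k Ω} {r : ℕ} {x : Fin r → K}
    (hx : ∀ i, x i ≠ 0) (hli : LinearIndependent ℚ fun i => W (x i : Ω)) :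
    IndVal (vring W K) x := by
  refine ⟨hx, fun e he => ?_⟩
  have hx' : ∀ i, (x i : Ω) ≠ 0 := fun i h0 => hx i (Subtype.ext h0)
  have h1 := (val_eq_one he).2
  have h2 : ((e.prod fun i n => x i ^ n : K) : Ω) = ∏ i, (x i : Ω) ^ e i := by
    rw [Finsupp.prod_fintype _ _ (fun i => zpow_zero _)]
    have h3 : ((∏ i, x i ^ e i : K) : Ω) = K.val (∏ i, x i ^ e i) := rfl
    rw [h3, map_prod]
    refine Finset.prod_congr rfl fun i _ => ?_
    rw [map_zpow₀]
    rfl
  rw [h2, W.map_prod _ _ fun i _ => zpow_ne_zero _ (hx' i)] at h1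
  have h4 : ∑ i, ((e i : ℤ) : ℚ) • W (x i : Ω) = 0 := by
    rw [← h1]
    refine Finset.sum_congr rfl fun i _ => ?_
    rw [W.map_zpow (hx' i), Rat.smul_def]
    push_cast
    rfl
  have h5 := Fintype.linearIndependent_iff.1 hli (fun i => ((e i : ℤ) : ℚ)) h4
  ext i
  have h6 := h5 i
  rw [Finsupp.zero_apply]
  exact_mod_cast h6

/-! ## Residually transcendental elements -/

section Res

variable [IsAlgClosed k]

/-- Polynomials in a residually transcendental element. -/
theorem aeval_val {W : RVal Ω} (hk : ∀ c : k, c ≠ 0 → W (algebraMap k Ω c) = 0) {u : Ω}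
    (hu : ∀ c : k, W (u - algebraMap k Ω c) = 0 ∧ u ≠ algebraMap k Ω c) :
    ∀ (n : ℕ) (Q : k[X]), Q.natDegree = n → Q ≠ 0 → aeval u Q ≠ 0 ∧ W (aeval u Q) = 0 := by
  intro n
  induction n with
  | zero =>
    intro Q hQ hQ0
    rw [Polynomial.eq_C_of_natDegree_eq_zero hQ] at hQ0 ⊢
    have hc : Q.coeff 0 ≠ 0 := by
      intro h0
      rw [h0, Polynomial.C_0] at hQ0
      exact hQ0 rfl
    rw [aeval_C]
    exact ⟨fun h0 => hc ((algebraMap k Ω).injective (by rw [h0, map_zero])), hk _ hc⟩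
  | succ n ih =>
    intro Q hQ hQ0
    have hdeg : Q.degree ≠ 0 := by
      intro h0
      have := Polynomial.natDegree_eq_zero_iff_degree_le_zero.2 h0.le
      omega
    obtain ⟨c, hc⟩ := IsAlgClosed.exists_root Q hdeg
    obtain ⟨Q', hQ'⟩ := Polynomial.dvd_iff_isRoot.2 hc
    have hQ'0 : Q' ≠ 0 := by
      rintro rfl
      rw [mul_zero] at hQ'
      exact hQ0 hQ'
    have hd' : Q'.natDegree = n := by
      have h1 := Polynomial.natDegree_mul (Polynomial.X_sub_C_ne_zero c) hQ'0
      rw [← hQ', hQ, Polynomial.natDegree_X_sub_C] at h1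
      omega
    obtain ⟨h2, h3⟩ := ih Q' hd' hQ'0
    have h4 : aeval u Q = (u - algebraMap k Ω c) * aeval u Q' := by
      conv_lhs => rw [hQ']
      rw [map_mul, map_sub, aeval_X, aeval_C]
    have h5 : u - algebraMap k Ω c ≠ 0 := sub_ne_zero.2 (hu c).2
    rw [h4]
    exact ⟨mul_ne_zero h5 h2, by rw [W.map_mul h5 h2, (hu c).1, h3, add_zero]⟩

/-- A residually transcendental element algebraic over `K` gives one of `K`. -/
theorem exists_res {W : RVal Ω} (hk : ∀ c : k, c ≠ 0 → W (algebraMap k Ω c) = 0)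
    {K : IntermediateField k Ω} {u : Ω} (hu : ∀ c : k, W (u - algebraMap k Ω c) = 0 ∧
      u ≠ algebraMap k Ω c) (halg : IsAlgebraic K u) :
    ∃ f ∈ K, ∀ c : k, W (f - algebraMap k Ω c) = 0 ∧ f ≠ algebraMap k Ω c := by
  classical
  by_contra hno
  push Not at hno
  have hkg : ∀ c : k, W.Ge 0 (algebraMap k Ω c) := by
    intro c h0
    have hc : c ≠ 0 := by
      rintro rfl
      exact h0 (map_zero _)
    rw [hk c hc]
  have hres : ∀ f ∈ K, W.Ge 0 f → ∃ c : k, f - algebraMap k Ω c = 0 ∨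
      0 < W (f - algebraMap k Ω c) := by
    intro f hf hf0
    obtain ⟨c, hc⟩ := hno f hf
    refine ⟨c, ?_⟩
    by_cases h1 : f = algebraMap k Ω c
    · exact Or.inl (sub_eq_zero.2 h1)
    · right
      have h2 : W (f - algebraMap k Ω c) ≠ 0 := fun h3 => h1 (hc h3)
      have h3 : W.Ge 0 (f - algebraMap k Ω c) := hf0.sub (hkg c)
      exact lt_of_le_of_ne (h3 (sub_ne_zero.2 h1)) (Ne.symm h2)
  obtain ⟨P, hP0, hPu⟩ := halg
  have hsupp : P.support.Nonempty := Polynomial.support_nonempty.2 hP0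
  obtain ⟨i₀, hi₀, hmin⟩ := P.support.exists_min_image (fun i => W (P.coeff i : Ω)) hsupp
  have ha : (P.coeff i₀ : Ω) ≠ 0 := by
    intro h0
    exact (Polynomial.mem_support_iff.1 hi₀) (Subtype.ext h0)
  have hq : ∀ i, W.Ge 0 ((P.coeff i : Ω) / (P.coeff i₀ : Ω)) := by
    intro i h0
    have hi : (P.coeff i : Ω) ≠ 0 := fun h1 => h0 (by rw [h1, zero_div])
    have hi' : i ∈ P.support := by
      rw [Polynomial.mem_support_iff]
      intro h1
      exact hi (by rw [h1]; rfl)
    rw [W.map_div hi ha]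
    have := hmin i hi'
    linarith
  choose c hc using fun i => hres ((P.coeff i : Ω) / (P.coeff i₀ : Ω))
    (div_mem (P.coeff i).2 (P.coeff i₀).2) (hq i)
  have hc0 : c i₀ ≠ 0 := by
    intro h0
    have h1 := hc i₀
    rw [h0, map_zero, sub_zero, div_self ha, W.map_one] at h1
    rcases h1 with h1 | h1
    · exact one_ne_zero h1
    · exact lt_irrefl _ h1
  set Q : k[X] := ∑ i ∈ P.support, Polynomial.C (c i) * Polynomial.X ^ i with hQ
  have hQ0 : Q ≠ 0 := by
    intro h0
    have h1 : Q.coeff i₀ = c i₀ := by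
      rw [hQ, Polynomial.finsetSum_coeff]
      rw [Finset.sum_eq_single i₀]
      · rw [Polynomial.coeff_C_mul, Polynomial.coeff_X_pow_self, mul_one]
      · intro j _ hj
        rw [Polynomial.coeff_C_mul, Polynomial.coeff_X_pow, if_neg (Ne.symm hj), mul_zero]
      · intro h2
        exact absurd hi₀ h2
    rw [h0, Polynomial.coeff_zero] at h1
    exact hc0 h1.symm
  have hu0 : u ≠ 0 := by
    have h1 := (hu 0).2
    rwa [map_zero] at h1
  have hWu : W u = 0 := by
    have h1 := (hu 0).1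
    rwa [map_zero, sub_zero] at h1
  have hsum : aeval u Q = - ∑ i ∈ P.support,
      ((P.coeff i : Ω) / (P.coeff i₀ : Ω) - algebraMap k Ω (c i)) * u ^ i := by
    have h1 : ∑ i ∈ P.support, (P.coeff i : Ω) / (P.coeff i₀ : Ω) * u ^ i = 0 := by
      have h2 : ∑ i ∈ P.support, (P.coeff i : Ω) * u ^ i = 0 := by
        have h3 := hPu
        rw [Polynomial.aeval_def, Polynomial.eval₂_eq_sum, Polynomial.sum_def] at h3
        exact h3
      have h4 : ∑ i ∈ P.support, (P.coeff i : Ω) / (P.coeff i₀ : Ω) * u ^ i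
          = (∑ i ∈ P.support, (P.coeff i : Ω) * u ^ i) / (P.coeff i₀ : Ω) := by
        rw [Finset.sum_div]
        exact Finset.sum_congr rfl fun i _ => by ring
      rw [h4, h2, zero_div]
    have h5 : aeval u Q = ∑ i ∈ P.support, algebraMap k Ω (c i) * u ^ i := by
      rw [hQ, map_sum]
      refine Finset.sum_congr rfl fun i _ => ?_
      rw [map_mul, aeval_C, map_pow, aeval_X]
    rw [h5]
    have h6 : ∑ i ∈ P.support, ((P.coeff i : Ω) / (P.coeff i₀ : Ω) - algebraMap k Ω (c i)) * u ^ i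
        = ∑ i ∈ P.support, (P.coeff i : Ω) / (P.coeff i₀ : Ω) * u ^ i
          - ∑ i ∈ P.support, algebraMap k Ω (c i) * u ^ i := by
      rw [← Finset.sum_sub_distrib]
      exact Finset.sum_congr rfl fun i _ => by ring
    rw [h6, h1, zero_sub, neg_neg]
  -- the sum has positive value
  have hpos : ∃ ε : ℝ, 0 < ε ∧ ∀ i ∈ P.support,
      W.Ge ε (((P.coeff i : Ω) / (P.coeff i₀ : Ω) - algebraMap k Ω (c i)) * u ^ i) := by
    have h1 : ∀ i, ∃ ε : ℝ, 0 < ε ∧
        W.Ge ε (((P.coeff i : Ω) / (P.coeff i₀ : Ω) - algebraMap k Ω (c i)) * u ^ i) := by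
      intro i
      rcases hc i with h2 | h2
      · refine ⟨1, one_pos, ?_⟩
        rw [h2, zero_mul]
        exact RVal.Ge.zero
      · refine ⟨_, h2, fun h3 => ?_⟩
        rw [W.map_mul (left_ne_zero_of_mul h3) (pow_ne_zero _ hu0), W.map_pow hu0, hWu, mul_zero,
          add_zero]
    choose ε hε hεg using h1
    refine ⟨P.support.inf' hsupp ε, ?_, fun i hi => ?_⟩
    · rw [Finset.lt_inf'_iff]
      exact fun i _ => hε i
    · exact (hεg i).mono (Finset.inf'_le _ hi)
  obtain ⟨ε, hε, hεg⟩ := hpos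
  have h7 : W.Ge ε (aeval u Q) := by
    rw [hsum]
    exact (RVal.Ge.sum _ _ hεg).neg
  obtain ⟨h8, h9⟩ := aeval_val hk hu _ Q rfl hQ0
  have h10 := h7 h8
  linarith

/-- One residually transcendental element. -/
theorem indRes_vring {W : RVal Ω} (hk : ∀ c : k, c ≠ 0 → W (algebraMap k Ω c) = 0)
    {K : IntermediateField k Ω} {f : K} (hf : ∀ c : k, W ((f : Ω) - algebraMap k Ω c) = 0 ∧
      (f : Ω) ≠ algebraMap k Ω c) : IndRes k (vring W K) fun _ : Fin 1 => f := by
  constructor
  · intro _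
    have h1 := (hf 0).1
    rw [map_zero, sub_zero] at h1
    exact fun _ => h1.ge
  · intro P hP
    by_contra hP0
    set Q : k[X] := MvPolynomial.aeval (fun _ : Fin 1 => (Polynomial.X : k[X])) P with hQ
    have hQ0 : Q ≠ 0 := by
      have h1 : AlgebraicIndependent k (fun _ : Fin 1 => (Polynomial.X : k[X])) := by
        rw [algebraicIndependent_unique_type_iff]
        exact Polynomial.transcendental_X k
      intro h2
      exact hP0 (h1.eq_zero_of_aeval_eq_zero _ h2)
    have h3 : MvPolynomial.aeval (fun _ : Fin 1 => f) P = aeval f Q := by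
      rw [hQ]
      have h4 : (MvPolynomial.aeval (fun _ : Fin 1 => f) : MvPolynomial (Fin 1) k →ₐ[k] K) =
          (Polynomial.aeval f).comp (MvPolynomial.aeval fun _ : Fin 1 => (Polynomial.X : k[X])) := by
        refine MvPolynomial.algHom_ext fun i => ?_
        rw [AlgHom.comp_apply, MvPolynomial.aeval_X, MvPolynomial.aeval_X, Polynomial.aeval_X]
      rw [h4, AlgHom.comp_apply]
    obtain ⟨h5, h6⟩ := aeval_val hk hf _ Q rfl hQ0
    have h7 : ((aeval f Q : K) : Ω) = aeval (f : Ω) Q := by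
      have h8 := Polynomial.aeval_algHom_apply K.val f Q
      exact h8.symm
    rw [h3] at hP
    have h9 : aeval f Q ≠ 0 := by
      intro h0
      rw [h0] at h7
      exact h5 h7.symm
    have h10 := val_lt_one h9 hP
    rw [h7, h6] at h10
    exact lt_irrefl _ h10

end Res

end LUW

end Pool.Agent.TW
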