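import Pool.Agent.Lib.TWN.Defs
import Pool.Agent.Lib.D2P.A2sAux
import Pool.Agent.Lib.D2P.A2m

/-!
# TANK W (TWN), row AUT: translations of `Ω` over `L^alg`
-/

set_option autoImplicit false

open Polynomial

namespace Pool.Agent.TW

open Pool.Agent.H15JM (RVal)
open Pool.Agent.LU1 (VPos adj)

universe u

namespace GW

/-- The translation of `z` extends to an automorphism of the algebraic closure `Ω` of `A(z)`. -/
theorem exists_translation {A Ω : Type u} [Field A] [Field Ω] [Algebra A Ω] [IsAlgClosed Ω] {z : Ω}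
    (hz : Transcendental A z) (hΩ : ∀ g : Ω, IsAlgebraic (Algebra.adjoin A {z}) g) (a : A) :
    ∃ σ : Ω ≃ₐ[A] Ω, σ z = z + algebraMap A Ω a := by
  let _ : Algebra A[X] Ω := (aeval z).toRingHom.toAlgebra
  have hmap : ∀ P : A[X], algebraMap A[X] Ω P = aeval z P := fun _ => rfl
  have hinj : Function.Injective (algebraMap A[X] Ω) := by
    rw [injective_iff_map_eq_zero]
    intro P hP
    rw [hmap] at hP
    exact (transcendental_iff.1 hz) P hP
  have _ : FaithfulSMul A[X] Ω := (faithfulSMul_iff_algebraMap_injective A[X] Ω).2 hinj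
  have _ : Module.IsTorsionFree A[X] Ω := inferInstance
  have hmemr : ∀ P : A[X], aeval z P ∈ Algebra.adjoin A {z} := fun P =>
    Polynomial.aeval_mem_adjoin_singleton A z
  have halg : Algebra.IsAlgebraic A[X] Ω := by
    refine ⟨fun g => ?_⟩
    let f : A[X] →+* Algebra.adjoin A {z} :=
      ((aeval z : A[X] →ₐ[A] Ω).codRestrict (Algebra.adjoin A {z}) hmemr).toRingHom
    refine IsAlgebraic.of_ringHom_of_comp_eq (S := Algebra.adjoin A {z}) (B := Ω) f
      (RingHom.id Ω) (hΩ g) ?_ Function.injective_id ?_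
    · rintro ⟨x, hx⟩
      rw [Algebra.adjoin_singleton_eq_range_aeval] at hx
      obtain ⟨P, hP⟩ := hx
      exact ⟨P, Subtype.ext hP⟩
    · exact RingHom.ext fun P => rfl
  have _ : IsAlgClosure A[X] Ω := ⟨inferInstance, halg⟩
  let e : A[X] ≃+* A[X] := (algEquivAevalXAddC a).toRingEquiv
  let Φ : Ω ≃+* Ω := IsAlgClosure.equivOfEquiv Ω Ω e
  have hΦ : ∀ P : A[X], Φ (aeval z P) = aeval z (algEquivAevalXAddC a P) := fun P =>
    IsAlgClosure.equivOfEquiv_algebraMap Ω Ω e P
  have hΦA : ∀ b : A, Φ (algebraMap A Ω b) = algebraMap A Ω b := by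
    intro b
    have h1 := hΦ (C b)
    rw [aeval_C, algEquivAevalXAddC_apply, aeval_C] at h1
    rw [h1]
    simp
  refine ⟨AlgEquiv.ofRingEquiv (f := Φ) hΦA, ?_⟩
  have h1 := hΦ X
  rw [aeval_X, algEquivAevalXAddC_apply, aeval_X] at h1
  have h2 : AlgEquiv.ofRingEquiv (f := Φ) hΦA z = Φ z := rfl
  rw [h2, h1]
  simp

end GW

variable {k Ω : Type u} [Field k] [Field Ω] [Algebra k Ω] {v : RVal Ω}

/-- ROW AUT.  The automorphisms `z ↦ z + c c₀` over `L`. -/
theorem exists_shift [IsAlgClosed Ω] {L : IntermediateField k Ω} {z c₀ : Ω}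
    (hz : Transcendental L z) (hc : c₀ ∈ L) (hΩ : ∀ g : Ω, IsAlgebraic (adj L z) g) :
    ∃ Φ : k → (Ω ≃ₐ[L] Ω), (∀ c, Φ c z = z + algebraMap k Ω c * c₀) ∧
      ∀ (c : k) (α : Ω), IsAlgebraic L α → Φ c α = α := by
  have hzA : Transcendental (algebraicClosure L Ω) z := by
    intro h
    have h1 : IsAlgebraic L z := by
      have h2 := IsAlgebraic.restrictScalars L h
      exact h2
    exact hz h1
  have hle : adj L z ≤ adj ((algebraicClosure L Ω).restrictScalars k) z := by
    refine D2P.adj_mono (fun a ha => ?_) z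
    rw [IntermediateField.mem_restrictScalars, mem_algebraicClosure_iff]
    exact D2P.isAlgebraic_of_mem ha
  have hΩA : ∀ g : Ω, IsAlgebraic (Algebra.adjoin (algebraicClosure L Ω) {z}) g := by
    intro g
    have h1 : IsAlgebraic (adj ((algebraicClosure L Ω).restrictScalars k) z) g :=
      (hΩ g).tower_top_of_subalgebra_le (A := (adj L z).toSubalgebra)
        (B := (adj ((algebraicClosure L Ω).restrictScalars k) z).toSubalgebra) hle
    rw [D2P.isAlgebraic_adj_iff] at h1
    exact h1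
  choose σ hσ using fun a : algebraicClosure L Ω => GW.exists_translation hzA hΩA a
  have hmem : ∀ c : k, algebraMap k Ω c * c₀ ∈ algebraicClosure L Ω := by
    intro c
    rw [mem_algebraicClosure_iff]
    exact D2P.isAlgebraic_of_mem (mul_mem (L.algebraMap_mem c) hc)
  refine ⟨fun c => (σ ⟨_, hmem c⟩).restrictScalars L, fun c => ?_, fun c α hα => ?_⟩
  · exact hσ ⟨_, hmem c⟩
  · exact (σ ⟨_, hmem c⟩).commutes (⟨α, mem_algebraicClosure_iff.2 hα⟩ : algebraicClosure L Ω)

end Pool.Agent.TW
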