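import Pool.Agent.Lib.TW.Defs
import Pool.Agent.Lib.LUC.Mods

/-!
# TANK W, N: definitions for the fields without bounded derivations and for the W-trick
-/

set_option autoImplicit false

namespace Pool.Agent.TW

open Pool.Agent.H15JM (RVal)
open Pool.Agent.LU1 (VPos adj)

universe u

variable {k Ω : Type u} [Field k] [Field Ω] [Algebra k Ω]

/-- `z` is a limit of elements algebraic over `L`. -/
def LimAlg (v : RVal Ω) (L : IntermediateField k Ω) (z : Ω) : Prop :=
  ∀ C : ℝ, ∃ α : Ω, IsAlgebraic L α ∧ v.Ge C (z - α)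

/-- The valuation `v ∘ σ`. -/
def pull (v : RVal Ω) (σ : Ω ≃+* Ω) : RVal Ω where
  toFun f := v (σ f)
  map_mul' x y hx hy := by
    rw [map_mul, v.map_mul ((map_ne_zero σ).2 hx) ((map_ne_zero σ).2 hy)]
  map_add' x y hx hy hxy := by
    rw [map_add]
    exact v.map_add ((map_ne_zero σ).2 hx) ((map_ne_zero σ).2 hy)
      (by rw [← map_add]; exact (map_ne_zero σ).2 hxy)

theorem pull_apply (v : RVal Ω) (σ : Ω ≃+* Ω) (f : Ω) : pull v σ f = v (σ f) := rfl

/-- The automorphisms `z ↦ z + c c₀` over `L`, trivial on the elements algebraic over `L`. -/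
structure Shift (L : IntermediateField k Ω) (z c₀ : Ω) (Φ : k → (Ω ≃ₐ[L] Ω)) : Prop where
  apply_z : ∀ c, Φ c z = z + algebraMap k Ω c * c₀
  apply_alg : ∀ (c : k) (α : Ω), IsAlgebraic L α → Φ c α = α

/-- There are `c₀` in the group generated by finitely many elements of `L` and `α` algebraic
over `L` such that `v (z - β) < v c₀ < v (z - α)` for given `β`. -/
def Room (v : RVal Ω) (L : IntermediateField k Ω) (z : Ω) : Prop :=
  ∃ X : Finset Ω, (∀ x ∈ X, x ∈ L ∧ x ≠ 0) ∧ ∀ S : Finset Ω, (∀ β ∈ S, IsAlgebraic L β) →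
    ∃ (e : Ω → ℤ) (α : Ω), IsAlgebraic L α ∧ (∀ β ∈ S, v (z - β) < v (∏ x ∈ X, x ^ e x)) ∧
      v (∏ x ∈ X, x ^ e x) < v (z - α)

end Pool.Agent.TW
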