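import Pool.Agent.Lib.TWT.TR3
import Pool.Agent.Lib.TWN.Defs
import Pool.Agent.Lib.D2P.TTP

/-!
# TANK W, N: the W-trick, from the automorphisms `z ↦ z + c c₀` and the Gauss valuation
-/

set_option autoImplicit false

open Polynomial

namespace Pool.Agent.TW

open Pool.Agent.H15JM (RVal)
open Pool.Agent.LU1 (VPos adj)
open Pool.Agent.LUC (LUs QuoIs)
open Pool.Agent.D2 (Ctx0)
open Pool.Agent.TWT (cm cm_apply Dom quoIs_of_closure lus_of_trans vpos_hasse)

universe u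

variable {k Ω : Type u} [Field k] [Field Ω] [Algebra k Ω] {v : RVal Ω}

namespace WTa

/-- Generators of value `≥ 0`. -/
theorem exists_gens (v : RVal Ω) {L : IntermediateField k Ω} (hL : L.FG) : ∃ A1 : Finset Ω, (∀ a ∈ A1, v.Ge 0 a) ∧
      QuoIs (LUC.adj (algebraMap k Ω).range (A1 : Set Ω)) L.toSubfield := by
  classical
  obtain ⟨S, hS⟩ := hL
  refine ⟨S.image fun s => if 0 ≤ v s then s else s⁻¹, ?_, quoIs_of_closure ?_ ?_⟩
  · intro a ha
    obtain ⟨s, hs, rfl⟩ := Finset.mem_image.1 ha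
    by_cases h : 0 ≤ v s
    · rw [if_pos h]
      exact fun _ => h
    · rw [if_neg h]
      intro h0
      have hs0 : s ≠ 0 := fun h1 => h0 (by rw [h1, inv_zero])
      rw [v.map_inv hs0]
      linarith [not_le.1 h]
  · intro f hf
    refine LUC.adj_induction (p := fun f => f ∈ L.toSubfield) ?_ ?_ (fun _ _ => add_mem)
      (fun _ _ => mul_mem) hf
    · intro x hx
      obtain ⟨c, rfl⟩ := RingHom.mem_range.1 hx
      exact L.algebraMap_mem c
    · intro x hx
      obtain ⟨s, hs, rfl⟩ := Finset.mem_image.1 (Finset.mem_coe.1 hx)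
      have hsL : s ∈ L := by
        rw [← hS]
        exact IntermediateField.subset_adjoin k _ hs
      by_cases h : 0 ≤ v s
      · rw [if_pos h]
        exact hsL
      · rw [if_neg h]
        exact L.inv_mem hsL
  · obtain ⟨B, hB⟩ : ∃ B : Subring Ω, B = LUC.adj (algebraMap k Ω).range
      ((S.image fun s => if 0 ≤ v s then s else s⁻¹ : Finset Ω) : Set Ω) := ⟨_, rfl⟩
    rw [← hB]
    let M : IntermediateField k Ω := (Subfield.closure (B : Set Ω)).toIntermediateField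
      (fun c => Subfield.subset_closure (by
        rw [hB]
        exact LUC.base_le_adj _ _ (RingHom.mem_range_self _ c)))
    have hM : ∀ x, x ∈ M ↔ x ∈ Subfield.closure (B : Set Ω) := fun _ => Iff.rfl
    have hle : L ≤ M := by
      rw [← hS, IntermediateField.adjoin_le_iff]
      intro s hs
      have h1 : (if 0 ≤ v s then s else s⁻¹) ∈ Subfield.closure (B : Set Ω) :=
        Subfield.subset_closure (by
          rw [hB]
          exact LUC.mem_adj (Finset.mem_coe.2 (Finset.mem_image_of_mem _ hs)))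
      change s ∈ M
      rw [hM]
      by_cases h : 0 ≤ v s
      · rwa [if_pos h] at h1
      · rw [if_neg h] at h1
        have h2 := Subfield.inv_mem _ h1
        rwa [inv_inv] at h2
    intro f hf
    exact (hM f).1 (hle hf)

/-- Polynomials with coefficients in `L`. -/
theorem exists_lift {L : IntermediateField k Ω} {P : Polynomial Ω}
    (hP : ∀ i, P.coeff i ∈ L.toSubfield) : ∃ P0 : L[X], P0.map (algebraMap L Ω) = P := by
  have h1 : P ∈ Polynomial.lifts (algebraMap L Ω) := by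
    rw [Polynomial.lifts_iff_coeff_lifts]
    intro i
    exact ⟨⟨P.coeff i, hP i⟩, rfl⟩
  exact (Polynomial.mem_lifts P).1 h1

theorem root_alg {L : IntermediateField k Ω} {P : Polynomial Ω}
    (hP : ∀ i, P.coeff i ∈ L.toSubfield) (h0 : P ≠ 0) {β : Ω} (hβ : P.eval β = 0) :
    IsAlgebraic L β := by
  obtain ⟨P0, rfl⟩ := exists_lift hP
  refine ⟨P0, ?_, ?_⟩
  · rintro rfl
    exact h0 (Polynomial.map_zero _)
  · rwa [Polynomial.aeval_def, ← Polynomial.eval_map]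

/-- The elements of `L(z)` are quotients of polynomials. -/
theorem exists_frac {L : IntermediateField k Ω} {z f : Ω} (hf : f ∈ adj L z) (h0 : f ≠ 0) :
    ∃ P Q : Polynomial Ω, (∀ i, P.coeff i ∈ L.toSubfield) ∧ (∀ i, Q.coeff i ∈ L.toSubfield) ∧
      P.eval z ≠ 0 ∧ Q.eval z ≠ 0 ∧ f = P.eval z / Q.eval z := by
  obtain ⟨P, Q, hPQ⟩ := D2P.mem_adj_frac hf
  have h1 : ∀ P : L[X], (P.map (algebraMap L Ω)).eval z = aeval z P := fun P => by
    rw [Polynomial.eval_map, Polynomial.aeval_def]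
  refine ⟨P.map (algebraMap L Ω), Q.map (algebraMap L Ω), fun i => ?_, fun i => ?_, ?_, ?_, ?_⟩
  · rw [Polynomial.coeff_map]
    exact (P.coeff i).2
  · rw [Polynomial.coeff_map]
    exact (Q.coeff i).2
  · rw [h1]
    intro h
    rw [h, zero_div] at hPQ
    exact h0 hPQ
  · rw [h1]
    intro h
    rw [h, div_zero] at hPQ
    exact h0 hPQ
  · rw [h1, h1]
    exact hPQ

/-- Scaling. -/
theorem transcendental_smul {L : IntermediateField k Ω} {z d : Ω} (hz : Transcendental L z)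
    (hd : d ∈ L) (hd0 : d ≠ 0) : Transcendental L (d * z) := by
  intro halg
  apply hz
  have h1 : IsAlgebraic L (d⁻¹ : Ω) :=
    isAlgebraic_algebraMap (⟨d⁻¹, L.inv_mem hd⟩ : L)
  have h2 := h1.mul halg
  rwa [inv_mul_cancel_left₀ hd0] at h2

theorem adj_smul {L : IntermediateField k Ω} {z d : Ω} (hd : d ∈ L) (hd0 : d ≠ 0) :
    adj L (d * z) = adj L z := by
  apply le_antisymm
  · refine sup_le le_sup_left ?_
    rw [IntermediateField.adjoin_le_iff, Set.singleton_subset_iff]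
    exact mul_mem (LU1.mem_adj_left hd) (LU1.mem_adj_self L z)
  · refine sup_le le_sup_left ?_
    rw [IntermediateField.adjoin_le_iff, Set.singleton_subset_iff]
    have h1 : z = d⁻¹ * (d * z) := by rw [inv_mul_cancel_left₀ hd0]
    have h2 : d⁻¹ * (d * z) ∈ adj L (d * z) :=
      mul_mem (LU1.mem_adj_left (L.inv_mem hd)) (LU1.mem_adj_self L _)
    rw [← h1] at h2
    exact h2

end WTa

open WTa in
/-- The W-trick, from the automorphisms and the Gauss valuation. -/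
theorem lus_of_gauss_of [IsAlgClosed k] [IsAlgClosed Ω] (h : Ctx0 k v)
    {L : IntermediateField k Ω} (hL : L.FG) (hpos : ∃ a ∈ L, a ≠ 0 ∧ 0 < v a) {z : Ω}
    (hz : Transcendental L z) (hΩ : ∀ g : Ω, IsAlgebraic (adj L z) g) (hroom : Room v L z)
    (hshift : ∀ {z c₀ : Ω}, Transcendental L z → c₀ ∈ L → (∀ g : Ω, IsAlgebraic (adj L z) g) →
      ∃ Φ : k → (Ω ≃ₐ[L] Ω), (∀ c, Φ c z = z + algebraMap k Ω c * c₀) ∧
        ∀ (c : k) (α : Ω), IsAlgebraic L α → Φ c α = α)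
    (hgauss : ∀ {z c₀ α : Ω}, Transcendental L z → c₀ ∈ L → c₀ ≠ 0 → IsAlgebraic L α →
      v c₀ < v (z - α) → (∀ g : Ω, IsAlgebraic (adj L z) g) → ∀ Φ : k → (Ω ≃ₐ[L] Ω),
      Shift L z c₀ Φ →
      ∃ W : RVal Ω, (∀ f, f ≠ 0 → IsAlgebraic L f → W f = v f) ∧
        (∀ f ∈ adj ((algebraicClosure L Ω).restrictScalars k) z, f ≠ 0 →
          {c : k | v (Φ c f) ≠ W f}.Finite) ∧
        (∀ β : Ω, IsAlgebraic L β → v (z - β) < v c₀ → W (z - β) = v (z - β)) ∧
        ∀ c : k, W ((z - α) / c₀ - algebraMap k Ω c) = 0)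
    (hW : ∀ W : RVal Ω, (∀ f, f ≠ 0 → IsAlgebraic L f → W f = v f) →
      (∃ u : Ω, ∀ c : k, W (u - algebraMap k Ω c) = 0 ∧ u ≠ algebraMap k Ω c) →
      LUs W (algebraMap k Ω).range (adj L z).toSubfield) :
    LUs v (algebraMap k Ω).range (adj L z).toSubfield := by
  classical
  have hk : ∀ c : k, c ≠ 0 → v (algebraMap k Ω c) = 0 := h.triv
  obtain ⟨A1, hA1, hq1⟩ := exists_gens v hL
  have hz0 : z ≠ 0 := by
    rintro rfl
    exact hz (isAlgebraic_zero)
  -- `z' = d z` has value `≥ 0`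
  obtain ⟨d, hd, hd0, hdv⟩ : ∃ d ∈ L, d ≠ 0 ∧ 0 ≤ v (d * z) := by
    obtain ⟨a, ha, ha0, hav⟩ := hpos
    obtain ⟨N, hN⟩ := exists_nat_gt (-v z / v a)
    refine ⟨a ^ N, pow_mem ha N, pow_ne_zero N ha0, ?_⟩
    rw [v.map_mul (pow_ne_zero N ha0) hz0, v.map_pow ha0]
    rw [div_lt_iff₀ hav] at hN
    linarith
  have hz'tr := transcendental_smul hz hd hd0
  have hadj := adj_smul (z := z) hd hd0
  have hΩ' : ∀ g : Ω, IsAlgebraic (adj L (d * z)) g := by rw [hadj]; exact hΩ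
  have hz'0 : d * z ≠ 0 := mul_ne_zero hd0 hz0
  rw [← hadj]
  rw [← hadj] at hW
  obtain ⟨z', hz'⟩ : ∃ z' : Ω, z' = d * z := ⟨_, rfl⟩
  rw [← hz'] at hdv hz'tr hΩ' hz'0 hW ⊢
  refine lus_of_trans hk (fun c => L.algebraMap_mem c) ?_ (LU1.mem_adj_self L z')
    (fun _ => hdv) (fun f hf hf0 => exists_frac hf hf0) A1 hA1 hq1 ?_
  · intro x hx
    exact LU1.mem_adj_left hx
  intro S hS
  -- room
  obtain ⟨RS, hRS⟩ : ∃ RS : Finset Ω, RS = insert 0 (S.biUnion fun P => P.roots.toFinset) :=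
    ⟨_, rfl⟩
  have hRSalg : ∀ β ∈ RS, IsAlgebraic L β := by
    intro β hβ
    rw [hRS, Finset.mem_insert, Finset.mem_biUnion] at hβ
    rcases hβ with rfl | ⟨P, hP, hβ⟩
    · exact isAlgebraic_zero
    · rw [Multiset.mem_toFinset] at hβ
      exact root_alg (hS P hP).1 (Polynomial.ne_zero_of_mem_roots hβ)
        (Polynomial.isRoot_of_mem_roots hβ)
  have hdalg : IsAlgebraic L d := isAlgebraic_algebraMap (⟨d, hd⟩ : L)
  have hdialg : IsAlgebraic L (d⁻¹ : Ω) := isAlgebraic_algebraMap (⟨d⁻¹, L.inv_mem hd⟩ : L)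
  have hzne : ∀ β : Ω, IsAlgebraic L β → z' - β ≠ 0 := by
    intro β hβ h0
    apply hz'tr
    rw [sub_eq_zero.1 h0]
    exact hβ
  have hzne' : ∀ β : Ω, IsAlgebraic L β → z - β ≠ 0 := by
    intro β hβ h0
    apply hz
    rw [sub_eq_zero.1 h0]
    exact hβ
  obtain ⟨X, hX, hroom⟩ := hroom
  obtain ⟨e, α, hα, h1, h2⟩ := hroom (RS.image fun β => d⁻¹ * β) (by
    intro β hβ
    obtain ⟨γ, hγ, rfl⟩ := Finset.mem_image.1 hβ
    exact hdialg.mul (hRSalg γ hγ))
  obtain ⟨c₁, hc₁⟩ : ∃ c₁ : Ω, c₁ = ∏ x ∈ X, x ^ e x := ⟨_, rfl⟩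
  rw [← hc₁] at h1 h2
  have hc₁L : c₁ ∈ L := by
    rw [hc₁]
    exact prod_mem fun x hx => zpow_mem (hX x hx).1 _
  have hc₁0 : c₁ ≠ 0 := by
    rw [hc₁]
    exact Finset.prod_ne_zero_iff.2 fun x hx => zpow_ne_zero _ (hX x hx).2
  obtain ⟨c₀, hc₀⟩ : ∃ c₀ : Ω, c₀ = d * c₁ := ⟨_, rfl⟩
  have hc₀L : c₀ ∈ L := by rw [hc₀]; exact mul_mem hd hc₁L
  have hc₀0 : c₀ ≠ 0 := by rw [hc₀]; exact mul_ne_zero hd0 hc₁0
  have hval : v c₀ = v d + v c₁ := by rw [hc₀, v.map_mul hd0 hc₁0]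
  have hlow : ∀ β ∈ RS, v (z' - β) < v c₀ := by
    intro β hβ
    have h3 := h1 (d⁻¹ * β) (Finset.mem_image_of_mem _ hβ)
    have h4 : z' - β = d * (z - d⁻¹ * β) := by
      rw [hz', mul_sub, mul_inv_cancel_left₀ hd0]
    rw [h4, v.map_mul hd0 (hzne' _ (hdialg.mul (hRSalg β hβ))), hval]
    linarith
  have hhigh : v c₀ < v (z' - d * α) := by
    have h4 : z' - d * α = d * (z - α) := by rw [hz']; ring
    rw [h4, v.map_mul hd0 (hzne' _ hα), hval]
    linarith
  obtain ⟨Φ, hΦz, hΦa⟩ := hshift hz'tr hc₀L hΩ'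
  obtain ⟨W, hWL, hWf, hWβ, hWu⟩ := hgauss hz'tr hc₀L hc₀0 (hdalg.mul hα) hhigh hΩ' Φ
    ⟨hΦz, hΦa⟩
  have hWL' : ∀ x ∈ L.toSubfield, x ≠ 0 → W x = v x := fun x hx hx0 =>
    hWL x hx0 (isAlgebraic_algebraMap (⟨x, hx⟩ : L))
  have hz'W : W z' = v z' := by
    have h3 := hWβ 0 isAlgebraic_zero (hlow 0 (by rw [hRS]; exact Finset.mem_insert_self _ _))
    rwa [sub_zero] at h3
  refine ⟨W, c₀, hc₀L, ?_, hWL', ?_, ?_, ?_, ?_⟩
  · intro _
    have h3 := hlow 0 (by rw [hRS]; exact Finset.mem_insert_self _ _)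
    rw [sub_zero] at h3
    linarith
  · intro _
    rw [hz'W]
    exact hdv
  · refine hW W hWL ⟨(z' - d * α) / c₀, fun c => ⟨hWu c, fun h0 => ?_⟩⟩
    have h3 : z' = algebraMap k Ω c * c₀ + d * α := by
      rw [div_eq_iff hc₀0] at h0
      rw [← h0]
      ring
    apply hz'tr
    rw [h3]
    refine IsAlgebraic.add ?_ (hdalg.mul hα)
    exact isAlgebraic_algebraMap (⟨algebraMap k Ω c * c₀, mul_mem (L.algebraMap_mem c) hc₀L⟩ : L)
  · -- the errors
    intro P hP j hj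
    have hP0 : P ≠ 0 := by
      rintro rfl
      exact (hS 0 hP).2 eval_zero
    refine vpos_hasse P.roots (a := P.leadingCoeff) ?_ (hS P hP).2 ?_ j hj
    · exact (IsAlgClosed.splits P).eq_prod_roots
    · intro β hβ
      have hβRS : β ∈ RS := by
        rw [hRS, Finset.mem_insert, Finset.mem_biUnion]
        exact Or.inr ⟨P, hP, Multiset.mem_toFinset.2 hβ⟩
      intro _
      rw [W.map_div hc₀0 (hzne β (hRSalg β hβRS)), hWL' c₀ hc₀L hc₀0,
        hWβ β (hRSalg β hβRS) (hlow β hβRS)]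
      have := hlow β hβRS
      linarith
  · intro U hU
    have hle : adj L z' ≤ adj ((algebraicClosure L Ω).restrictScalars k) z' := by
      refine sup_le_sup_right ?_ _
      intro x hx
      rw [IntermediateField.mem_restrictScalars]
      exact (algebraicClosure L Ω).algebraMap_mem (⟨x, hx⟩ : L)
    have hfin : (⋃ f ∈ (U.filter fun f => f ≠ 0 : Finset Ω), {c : k | v (Φ c f) ≠ W f}).Finite := by
      refine Set.Finite.biUnion (Finset.finite_toSet _) fun f hf => ?_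
      have hf' := Finset.mem_filter.1 (Finset.mem_coe.1 hf)
      exact hWf f (hle (hU f hf'.1)) hf'.2
    have hkinf : Infinite k := IsAlgClosed.instInfinite
    obtain ⟨a, ha⟩ := hfin.exists_notMem
    refine ⟨a, (Φ a).toRingEquiv, fun x hx => ?_, hΦz a, ?_⟩
    · exact (Φ a).commutes (⟨x, hx⟩ : L)
    · intro f hf hf0
      have h3 : v (Φ a f) = W f := by
        by_contra h4
        apply ha
        rw [Set.mem_iUnion₂]
        exact ⟨f, Finset.mem_filter.2 ⟨hf, hf0⟩, h4⟩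
      have h4 : (cm v (Φ a).toRingEquiv) f = W f := h3
      rw [h4]
      exact ⟨fun h => h, fun h => h⟩

end Pool.Agent.TW
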