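import Pool.Agent.Lib.TWN.Defs
import Pool.Agent.Lib.TWN.LURS
import Pool.Agent.Lib.TWN.LUWa
import Pool.Agent.Lib.LU2_h15z.Final
import Pool.Agent.Lib.TW.HRLUa
import Pool.Agent.Lib.TW.T1
import Pool.Agent.Lib.TW.A2

/-!
# TANK W (TWN), row LUW: log uniformization for the Gauss valuations in defect one
-/

set_option autoImplicit false

open Polynomial

namespace Pool.Agent.TW

open Pool.Agent.H15JM (RVal)
open Pool.Agent.LU1 (VPos adj)
open Pool.Agent.LUC (Cl LUs IsMod Par SM QuoIs lv)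
open Pool.Agent.D2 (Ctx0)
open Pool.Agent.D2P (hen)

universe u

variable {k Ω : Type u} [Field k] [Field Ω] [Algebra k Ω] {v : RVal Ω} {r : ℕ}

namespace LUW

theorem adj_alg {L : IntermediateField k Ω} {z : Ω} (hz : IsAlgebraic L z) :
    ∀ a ∈ adj L z, IsAlgebraic L a := by
  have h1 : adj L z ≤ (algebraicClosure L Ω).restrictScalars k := by
    refine LU1.adj_le (fun a ha => ?_) ?_
    · rw [IntermediateField.mem_restrictScalars, mem_algebraicClosure_iff]
      exact D2P.isAlgebraic_of_mem ha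
    · rw [IntermediateField.mem_restrictScalars, mem_algebraicClosure_iff]
      exact hz
  intro a ha
  have h2 := h1 ha
  rwa [IntermediateField.mem_restrictScalars, mem_algebraicClosure_iff] at h2

theorem trdeg_adj_le (L : IntermediateField k Ω) (z : Ω) :
    Algebra.trdeg k (adj L z) ≤ Algebra.trdeg k L + 1 := by
  by_cases hz : IsAlgebraic L z
  · rw [trdeg_eq_of_alg (LU1.le_adj L z) (adj_alg hz)]
    exact self_le_add_right _ _
  · exact (HRLU.trdeg_adj hz).le

end LUW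

/-- ROW LUW.  Log uniformization for the Gauss valuations in defect one. -/
theorem lus_gauss (p : ℕ) [Fact p.Prime] [CharP k p] [IsAlgClosed k] [IsAlgClosed Ω]
    (h : Ctx k v r) {L : IntermediateField k Ω} (hL : L.FG) (hfull : Full v L)
    (htr : Algebra.trdeg k L ≤ ((r + 1 : ℕ) : Cardinal)) {z : Ω}
    (hΩ : ∀ g : Ω, IsAlgebraic (adj L z) g) (W : RVal Ω)
    (hWL : ∀ f, f ≠ 0 → IsAlgebraic L f → W f = v f)
    (hWu : ∃ u : Ω, ∀ c : k, W (u - algebraMap k Ω c) = 0 ∧ u ≠ algebraMap k Ω c) :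
    LUs W (algebraMap k Ω).range (adj L z).toSubfield := by
  have hk : ∀ c : k, c ≠ 0 → W (algebraMap k Ω c) = 0 := by
    intro c hc
    rw [hWL _ (fun h0 => hc ((algebraMap k Ω).injective (by rw [h0, map_zero])))
      (D2P.isAlgebraic_of_mem (L.algebraMap_mem c))]
    exact h.triv c hc
  have hkg : ∀ c : k, W.Ge 0 (algebraMap k Ω c) := by
    intro c h0
    have hc : c ≠ 0 := by
      rintro rfl
      exact h0 (map_zero _)
    rw [hk c hc]
  have hE : (adj L z).FG := D2P.fg_adj hL z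
  have hEtop : (⊤ : IntermediateField k (adj L z)).FG := by
    rw [← IntermediateField.essFiniteType_iff] at hE
    rw [IntermediateField.fg_top_iff]
    exact hE
  obtain ⟨x, hx, hxi, -⟩ := hfull.exists_span h
  have hxW : ∀ i, W (x i) = v (x i) := fun i =>
    hWL _ (hx i).2 (D2P.isAlgebraic_of_mem (hx i).1)
  obtain ⟨u, hu⟩ := hWu
  obtain ⟨f, hfE, hf⟩ := LUW.exists_res hk hu (hΩ u)
  refine lus_of_lur hkg (V := LUW.vring W (adj L z)) (fun f => LUW.mem_vring)
    (LU2.realCaseR p Fact.out (adj L z) hEtop _ (fun c => ?_) ?_ ?_)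
  · exact hkg c
  · -- rank one
    have hr := h.rpos
    obtain ⟨a, haL, ha0, hav⟩ : ∃ a ∈ L, a ≠ 0 ∧ 0 < W a := by
      have hne : v (x ⟨0, hr⟩) ≠ 0 := hxi.ne_zero ⟨0, hr⟩
      rcases lt_or_gt_of_ne hne with h1 | h1
      · refine ⟨(x ⟨0, hr⟩)⁻¹, inv_mem (hx _).1, inv_ne_zero (hx _).2, ?_⟩
        rw [W.map_inv (hx _).2, hxW]
        linarith
      · exact ⟨x ⟨0, hr⟩, (hx _).1, (hx _).2, by rwa [hxW]⟩
    exact LUW.isR1_vring (LU1.le_adj L z haL) ha0 hav
  · -- defect at most one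
    refine ⟨r, 1, ?_, ⟨fun i => ⟨x i, LU1.le_adj L z (hx i).1⟩, ?_⟩,
      ⟨fun _ => ⟨f, hfE⟩, LUW.indRes_vring hk hf⟩⟩
    · refine (LUW.trdeg_adj_le L z).trans ?_
      have h1 : Algebra.trdeg k L + 1 ≤ ((r + 1 : ℕ) : Cardinal) + 1 := by
        gcongr
      refine h1.trans (le_of_eq ?_)
      push_cast
      rfl
    · refine LUW.indVal_vring (fun i h0 => (hx i).2 (congrArg Subtype.val h0)) ?_
      have h1 : (fun i => W (((⟨x i, LU1.le_adj L z (hx i).1⟩ : adj L z)) : Ω)) =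
          fun i => v (x i) := funext hxW
      rw [h1]
      exact hxi

end Pool.Agent.TW
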