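import Pool.Agent.Lib.TWN.WT
import Pool.Agent.Lib.TWN.LUW
import Pool.Agent.Lib.TW.HRLUa
import Pool.Agent.Lib.D2.G3
import Pool.Agent.Lib.LU1_h15.ExtVal_H2

/-!
# TANK W, N: log uniformization through a field with the same henselization (row FIN2)
-/

set_option autoImplicit false

open Polynomial

namespace Pool.Agent.TW

open Pool.Agent.H15JM (RVal)
open Pool.Agent.LU1 (VPos adj)
open Pool.Agent.LUC (LUs)
open Pool.Agent.D2 (Ctx0 lus_of_cl)
open Pool.Agent.D2P (hen mem_hen mem_adj_self)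

universe u

variable {k Ω : Type u} [Field k] [Field Ω] [Algebra k Ω] {v : RVal Ω} {r : ℕ}

/-- If `Ω` is algebraic over `E`, every value has a multiple which is a value of `E`. -/
theorem full_of_alg {E : IntermediateField k Ω} (hΩ : ∀ g : Ω, IsAlgebraic E g) : Full v E := by
  intro g hg
  obtain ⟨P, hP, hPg⟩ := hΩ g
  rw [aeval_def, eval₂_eq_sum, sum_def] at hPg
  have hne : ∃ i ∈ P.support, algebraMap E Ω (P.coeff i) * g ^ i ≠ 0 := by
    obtain ⟨i, hi⟩ := (Polynomial.nonempty_support_iff).mpr hP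
    refine ⟨i, hi, mul_ne_zero ?_ (pow_ne_zero _ hg)⟩
    rw [_root_.map_ne_zero]
    exact mem_support_iff.mp hi
  obtain ⟨i, hi, j, hj, hij, hfi, hfj, heq⟩ := LU1.ExtVal_H2.two_min v _ _ hPg hne
  -- order the two indices
  have key : ∀ i j : ℕ, i < j → algebraMap E Ω (P.coeff i) * g ^ i ≠ 0 →
      algebraMap E Ω (P.coeff j) * g ^ j ≠ 0 →
      v (algebraMap E Ω (P.coeff i) * g ^ i) = v (algebraMap E Ω (P.coeff j) * g ^ j) →
      ∃ m : ℕ, 0 < m ∧ ∃ c ∈ E, c ≠ 0 ∧ v c = m * v g := by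
    intro i j hij hfi hfj heq
    have hi0 := left_ne_zero_of_mul hfi
    have hj0 := left_ne_zero_of_mul hfj
    refine ⟨j - i, Nat.sub_pos_of_lt hij, algebraMap E Ω (P.coeff i) / algebraMap E Ω (P.coeff j),
      div_mem (P.coeff i).2 (P.coeff j).2, div_ne_zero hi0 hj0, ?_⟩
    rw [v.map_mul hi0 (pow_ne_zero _ hg), v.map_pow hg, v.map_mul hj0 (pow_ne_zero _ hg),
      v.map_pow hg] at heq
    rw [div_eq_mul_inv, v.map_mul hi0 (inv_ne_zero hj0), v.map_inv hj0, Nat.cast_sub hij.le]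
    linarith
  rcases lt_or_gt_of_ne hij with h1 | h1
  · exact key i j h1 hfi hfj heq
  · exact key j i h1 hfj hfi heq.symm

/-- There is an element of positive value. -/
theorem Full.exists_pos (h : Ctx k v r) {E : IntermediateField k Ω} (hE : Full v E) :
    ∃ a ∈ E, a ≠ 0 ∧ 0 < v a := by
  obtain ⟨X, hX0, hX, -⟩ := h.rank
  have h1 : v (X ⟨0, h.rpos⟩) ≠ 0 := hX.ne_zero ⟨0, h.rpos⟩
  obtain ⟨m, hm, c, hc, hc0, hcv⟩ := hE (X ⟨0, h.rpos⟩) (hX0 _)
  have hm' : (0 : ℝ) < m := by exact_mod_cast hm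
  have h2 : v c ≠ 0 := by
    rw [hcv]
    exact mul_ne_zero hm'.ne' h1
  rcases lt_or_gt_of_ne h2 with h3 | h3
  · exact ⟨c⁻¹, inv_mem hc, inv_ne_zero hc0, by rw [v.map_inv hc0]; linarith⟩
  · exact ⟨c, hc, hc0, h3⟩

/-- Log uniformization of `E` from the one of a field with the same henselization. -/
theorem lus_of_hen_eq [IsAlgClosed Ω] (h : Ctx k v r) {E K₁ : IntermediateField k Ω}
    (hE : E.FG) (hK₁ : K₁.FG) (hΩ : ∀ g : Ω, IsAlgebraic E g) (hh : hen v E = hen v K₁)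
    (hL : LUs v (algebraMap k Ω).range K₁.toSubfield) :
    LUs v (algebraMap k Ω).range E.toSubfield := by
  have h1 : ∀ a ∈ E, a ∈ hen v K₁ := fun a ha => by
    rw [← hh]
    exact D2P.le_hen E ha
  have h2 : ∀ a ∈ K₁, a ∈ hen v E := fun a ha => by
    rw [hh]
    exact D2P.le_hen K₁ ha
  exact lus_of_cl E K₁ h.ge ((full_of_alg hΩ).exists_pos h) hE hK₁ hΩ
    (fun a ha => (mem_hen.1 (h1 a ha)).1) (fun a ha => (mem_hen.1 (h2 a ha)).1)
    (fun a ha => (mem_hen.1 (h1 a ha)).2) (fun a ha => (mem_hen.1 (h2 a ha)).2) hL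

/-- Log uniformization of `E` of defect two, if `hen E = hen N(z)` with room for `z`. -/
theorem lus_two_of_room (p : ℕ) [Fact p.Prime] [CharP k p] [IsAlgClosed k] [IsAlgClosed Ω]
    (h : Ctx k v r) {E : IntermediateField k Ω} (hE : E.FG) (hΩ : ∀ g : Ω, IsAlgebraic E g)
    (htr : Algebra.trdeg k E = (r + 2 : ℕ)) {N : IntermediateField k Ω} {z : Ω} (hN : N.FG)
    (hNf : Full v N) (hz : Transcendental N z) (hh : hen v E = hen v (adj N z))
    (hroom : Room v N z) : LUs v (algebraMap k Ω).range E.toSubfield := by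
  have hNz : (adj N z).FG := D2P.fg_adj hN z
  have hΩ' : ∀ g : Ω, IsAlgebraic (adj N z) g := by
    have h1 : ∀ a ∈ hen v (adj N z), IsAlgebraic (adj N z) a := fun a ha =>
      (mem_hen.1 ha).2.isIntegral.isAlgebraic
    intro g
    have h2 : IsAlgebraic (hen v (adj N z)) g := by
      rw [← hh]
      exact D2P.isAlgebraic_mono (D2P.le_hen E) (hΩ g)
    exact D2P.isAlgebraic_trans h1 h2
  refine lus_of_hen_eq h hE hNz hΩ hh ?_
  have htrN : Algebra.trdeg k N ≤ ((r + 1 : ℕ) : Cardinal) := by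
    have h1 : Algebra.trdeg k N + 1 = ((r + 2 : ℕ) : Cardinal) := by
      rw [← HRLU.trdeg_adj hz, ← HRLU.trdeg_hen (v := v), ← hh, HRLU.trdeg_hen, htr]
    obtain ⟨m, hm⟩ := Cardinal.lt_aleph0.1 (lt_of_le_of_lt (self_le_add_right _ 1)
      (h1.symm ▸ Cardinal.natCast_lt_aleph0 : Algebra.trdeg k N + 1 < Cardinal.aleph0))
    rw [hm] at h1 ⊢
    have h2 : m + 1 = r + 2 := by exact_mod_cast h1
    exact_mod_cast (by omega : m ≤ r + 1)
  exact lus_of_gauss h.toCtx0 hN (hNf.exists_pos h) hz hΩ' hroom fun W hW hu =>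
    lus_gauss p h hN hNf htrN hΩ' W hW hu

end Pool.Agent.TW
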