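import Pool.Agent.Lib.TWN.GWg
import Pool.Agent.Lib.TWN.GWs

/-!
# TANK W (TWN), rows AUT and GW: `exists_shift` and `exists_gauss`

The two theorems are proved in the files `GWs.lean` and `GWg.lean`.
-/
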