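import Pool.Agent.Lib.TWN.Defs
import Pool.Agent.Lib.LU1_h15.Base_G0s
import Pool.Agent.Lib.D2P.A2sAux
import Pool.Agent.Lib.D2P.A2m

/-!
# TANK W (TWN), row GW: the Gauss valuation as a limit of conjugates
-/

set_option autoImplicit false

open Polynomial Filter Topology

namespace Pool.Agent.TW

open Pool.Agent.H15JM (RVal)
open Pool.Agent.LU1 (VPos adj)
open Pool.Agent.D2 (Ctx0)

universe u

variable {k Ω : Type u} [Field k] [Field Ω] [Algebra k Ω] {v : RVal Ω}

namespace GW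

/-- One linear factor. -/
theorem factor_val (h : Ctx0 k v) {x c₀ : Ω} (hx0 : x ≠ 0) (hc0 : c₀ ≠ 0) :
    {c : k | v (x + algebraMap k Ω c * c₀) ≠ min (v x) (v c₀)}.Finite := by
  have hcne : ∀ c : k, c ≠ 0 → algebraMap k Ω c ≠ 0 := fun c hc h0 =>
    hc ((algebraMap k Ω).injective (by rw [h0, map_zero]))
  have hcv : ∀ c : k, c ≠ 0 → v (algebraMap k Ω c * c₀) = v c₀ := fun c hc => by
    rw [v.map_mul (hcne c hc) hc0, h.triv c hc, zero_add]
  rcases lt_trichotomy (v x) (v c₀) with h1 | h1 | h1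
  · refine (Set.finite_empty).subset ?_
    intro c hc
    exfalso
    apply hc
    rw [min_eq_left h1.le]
    by_cases hc' : c = 0
    · rw [hc', map_zero, zero_mul, add_zero]
    · exact (v.add_of_lt hx0 (mul_ne_zero (hcne c hc') hc0) (by rw [hcv c hc']; exact h1)).2
  · -- equal values
    have h2 : v (x / c₀) = 0 := by rw [v.map_div hx0 hc0, h1, sub_self]
    obtain ⟨d, -, hd⟩ := h.res (x / c₀) (div_ne_zero hx0 hc0) h2
    refine (Set.finite_singleton (-d)).subset ?_
    intro c hc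
    rw [Set.mem_singleton_iff]
    by_contra hcd
    apply hc
    rw [← h1, min_self, h1]
    have hcd' : c + d ≠ 0 := fun h0 => hcd (eq_neg_of_add_eq_zero_left h0)
    have h3 : x + algebraMap k Ω c * c₀ =
        (algebraMap k Ω (c + d) + (x / c₀ - algebraMap k Ω d)) * c₀ := by
      rw [map_add]
      field_simp
      ring
    have h4 : algebraMap k Ω (c + d) + (x / c₀ - algebraMap k Ω d) ≠ 0 ∧
        v (algebraMap k Ω (c + d) + (x / c₀ - algebraMap k Ω d)) = 0 := by
      by_cases h5 : x / c₀ - algebraMap k Ω d = 0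
      · rw [h5, add_zero]
        exact ⟨hcne _ hcd', h.triv _ hcd'⟩
      · have h6 := v.add_of_lt (hcne _ hcd') h5 (by rw [h.triv _ hcd']; exact hd h5)
        rw [h.triv _ hcd'] at h6
        exact h6
    rw [h3, v.map_mul h4.1 hc0, h4.2, zero_add]
  · refine (Set.finite_singleton (0 : k)).subset ?_
    intro c hc
    rw [Set.mem_singleton_iff]
    by_contra hc'
    apply hc
    rw [min_eq_right h1.le]
    have h2 := (v.add_of_lt (mul_ne_zero (hcne c hc') hc0) hx0 (by rw [hcv c hc']; exact h1)).2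
    rw [add_comm] at h2
    rw [h2, hcv c hc']

section

variable [IsAlgClosed Ω] {L : IntermediateField k Ω} {z c₀ : Ω} {Φ : k → (Ω ≃ₐ[L] Ω)}

/-- Polynomials in `z`. -/
theorem poly_val (h : Ctx0 k v) (hz : Transcendental L z) (_hc : c₀ ∈ L) (hc0 : c₀ ≠ 0)
    (hΦ : Shift L z c₀ Φ) :
    ∀ (n : ℕ) (P : (algebraicClosure L Ω)[X]), P.natDegree = n → P ≠ 0 →
      aeval z P ≠ 0 ∧ ∃ w : ℝ, {c : k | v (Φ c (aeval z P)) ≠ w}.Finite := by
  have hzA : ∀ β : Ω, IsAlgebraic L β → z - β ≠ 0 := by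
    intro β hβ h0
    rw [sub_eq_zero] at h0
    exact hz (h0 ▸ hβ)
  intro n
  induction n with
  | zero =>
    intro P hP hP0
    rw [Polynomial.eq_C_of_natDegree_eq_zero hP] at hP0 ⊢
    have ha : P.coeff 0 ≠ 0 := by
      intro h0
      rw [h0, Polynomial.C_0] at hP0
      exact hP0 rfl
    rw [aeval_C]
    have ha' : (algebraMap (algebraicClosure L Ω) Ω) (P.coeff 0) ≠ 0 := fun h0 =>
      ha ((algebraMap (algebraicClosure L Ω) Ω).injective (by rw [h0, map_zero]))
    refine ⟨ha', v ((algebraMap (algebraicClosure L Ω) Ω) (P.coeff 0)), ?_⟩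
    refine (Set.finite_empty).subset ?_
    intro c hcc
    exfalso
    apply hcc
    exact congrArg v (hΦ.apply_alg c _ (mem_algebraicClosure_iff.1 (P.coeff 0).2))
  | succ n ih =>
    intro P hP hP0
    have hdeg : P.degree ≠ 0 := by
      intro h0
      have := Polynomial.natDegree_eq_zero_iff_degree_le_zero.2 h0.le
      omega
    have hAC : IsAlgClosed (algebraicClosure L Ω) := IsAlgClosure.isAlgClosed L
    obtain ⟨β, hβ⟩ := IsAlgClosed.exists_root P hdeg
    obtain ⟨P', hP'⟩ := Polynomial.dvd_iff_isRoot.2 hβ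
    have hP'0 : P' ≠ 0 := by
      rintro rfl
      rw [mul_zero] at hP'
      exact hP0 hP'
    have hd' : P'.natDegree = n := by
      have h1 := Polynomial.natDegree_mul (Polynomial.X_sub_C_ne_zero β) hP'0
      rw [← hP', hP, Polynomial.natDegree_X_sub_C] at h1
      omega
    obtain ⟨h2, w, h3⟩ := ih P' hd' hP'0
    have hβa : IsAlgebraic L (β : Ω) := mem_algebraicClosure_iff.1 β.2
    have h4 : aeval z P = (z - β) * aeval z P' := by
      conv_lhs => rw [hP']
      rw [map_mul, map_sub, aeval_X, aeval_C]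
      rfl
    have h5 : z - (β : Ω) ≠ 0 := hzA _ hβa
    refine ⟨by rw [h4]; exact mul_ne_zero h5 h2, min (v (z - β)) (v c₀) + w, ?_⟩
    refine ((factor_val h h5 hc0).union h3).subset ?_
    intro c hcc
    by_contra hno
    rw [Set.mem_union, not_or] at hno
    obtain ⟨h6, h7⟩ := hno
    simp only [Set.mem_ofPred_eq, not_not] at h6 h7
    apply hcc
    have h8 : Φ c (z - β) = z - β + algebraMap k Ω c * c₀ := by
      rw [map_sub, hΦ.apply_z, hΦ.apply_alg c _ hβa]
      ring
    rw [h4, map_mul, v.map_mul ((map_ne_zero (Φ c)).2 h5) ((map_ne_zero (Φ c)).2 h2), h7, h8, h6]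

/-- Elements of `L^alg(z)`. -/
theorem elem_val (h : Ctx0 k v) (hz : Transcendental L z) (hc : c₀ ∈ L) (hc0 : c₀ ≠ 0)
    (hΦ : Shift L z c₀ Φ) {f : Ω}
    (hf : f ∈ adj ((algebraicClosure L Ω).restrictScalars k) z) (hf0 : f ≠ 0) :
    ∃ w : ℝ, {c : k | v (Φ c f) ≠ w}.Finite := by
  have h1 : f ∈ IntermediateField.adjoin (algebraicClosure L Ω) {z} := by
    rw [D2P.mem_adj_iff] at hf
    exact hf
  rw [IntermediateField.mem_adjoin_simple_iff] at h1
  obtain ⟨P, Q, hPQ⟩ := h1
  have hP0 : P ≠ 0 := by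
    rintro rfl
    rw [map_zero, zero_div] at hPQ
    exact hf0 hPQ
  have hQ0 : Q ≠ 0 := by
    rintro rfl
    rw [map_zero, div_zero] at hPQ
    exact hf0 hPQ
  obtain ⟨h2, w₁, h3⟩ := poly_val h hz hc hc0 hΦ _ P rfl hP0
  obtain ⟨h4, w₂, h5⟩ := poly_val h hz hc hc0 hΦ _ Q rfl hQ0
  refine ⟨w₁ - w₂, (h3.union h5).subset ?_⟩
  intro c hcc
  by_contra hno
  rw [Set.mem_union, not_or] at hno
  obtain ⟨h6, h7⟩ := hno
  simp only [Set.mem_ofPred_eq, not_not] at h6 h7
  apply hcc
  rw [hPQ, map_div₀, v.map_div ((map_ne_zero (Φ c)).2 h2) ((map_ne_zero (Φ c)).2 h4), h6, h7]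

/-- The values `v (Φ c f)` lie in a finite set for almost all `c`. -/
theorem bounded_val (h : Ctx0 k v) (hz : Transcendental L z) (hc : c₀ ∈ L) (hc0 : c₀ ≠ 0)
    (hΦ : Shift L z c₀ Φ) (hΩ : ∀ g : Ω, IsAlgebraic (adj L z) g) (f : Ω) :
    ∃ C : Finset ℝ, {c : k | v (Φ c f) ∉ C}.Finite := by
  classical
  by_cases hf0 : f = 0
  · refine ⟨{v 0}, (Set.finite_empty).subset ?_⟩
    intro c hcc
    exfalso
    apply hcc
    rw [hf0, map_zero, Finset.mem_singleton]
  obtain ⟨P, hP, hPf⟩ := hΩ f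
  have hcoef : ∀ i ∈ P.support, ((P.coeff i : adj L z) : Ω) ≠ 0 := by
    intro i hi h0
    exact (Polynomial.mem_support_iff.1 hi) (Subtype.ext h0)
  have hle : adj L z ≤ adj ((algebraicClosure L Ω).restrictScalars k) z := by
    refine D2P.adj_mono (fun a ha => ?_) z
    rw [IntermediateField.mem_restrictScalars, mem_algebraicClosure_iff]
    exact D2P.isAlgebraic_of_mem ha
  have hw : ∀ i : ℕ, ∃ w : ℝ, i ∈ P.support →
      {c : k | v (Φ c ((P.coeff i : adj L z) : Ω)) ≠ w}.Finite := by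
    intro i
    by_cases hi : i ∈ P.support
    · obtain ⟨w, hw⟩ := elem_val h hz hc hc0 hΦ (hle (P.coeff i).2) (hcoef i hi)
      exact ⟨w, fun _ => hw⟩
    · exact ⟨0, fun hi' => absurd hi' hi⟩
  choose w hw using hw
  refine ⟨(P.support ×ˢ P.support).image fun ij => (w ij.1 - w ij.2) / ((ij.2 : ℝ) - ij.1), ?_⟩
  have hfin : (⋃ i ∈ P.support, {c : k | v (Φ c ((P.coeff i : adj L z) : Ω)) ≠ w i}).Finite :=
    Set.Finite.biUnion P.support.finite_toSet fun i hi => hw i hi
  refine hfin.subset ?_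
  intro c hcc
  by_contra hno
  apply hcc
  have hno' : ∀ i ∈ P.support, v (Φ c ((P.coeff i : adj L z) : Ω)) = w i := by
    intro i hi
    by_contra h1
    exact hno (Set.mem_biUnion hi h1)
  have hsum : ∑ i ∈ P.support, Φ c ((P.coeff i : adj L z) : Ω) * (Φ c f) ^ i = 0 := by
    have h1 : ∑ i ∈ P.support, ((P.coeff i : adj L z) : Ω) * f ^ i = 0 := by
      rw [Polynomial.aeval_def, Polynomial.eval₂_eq_sum, Polynomial.sum_def] at hPf
      exact hPf
    have h2 := congrArg (Φ c) h1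
    rw [map_sum, map_zero] at h2
    rw [← h2]
    exact Finset.sum_congr rfl fun i _ => by rw [map_mul, map_pow]
  have hΦf : Φ c f ≠ 0 := (map_ne_zero (Φ c)).2 hf0
  have hΦc : ∀ i ∈ P.support, Φ c ((P.coeff i : adj L z) : Ω) ≠ 0 := fun i hi =>
    (map_ne_zero (Φ c)).2 (hcoef i hi)
  obtain ⟨i, hi, j, hj, hij, heq⟩ : ∃ i ∈ P.support, ∃ j ∈ P.support, i ≠ j ∧
      v (Φ c ((P.coeff i : adj L z) : Ω) * (Φ c f) ^ i) =
        v (Φ c ((P.coeff j : adj L z) : Ω) * (Φ c f) ^ j) := by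
    by_contra hcon
    push Not at hcon
    refine (LU1.sum_distinct (v := v) P.support ?_
      (fun i => Φ c ((P.coeff i : adj L z) : Ω) * (Φ c f) ^ i) ?_ ?_).1 hsum
    · rw [Finset.nonempty_iff_ne_empty]
      intro h0
      exact hP (Polynomial.support_eq_empty.1 h0)
    · intro i hi
      exact mul_ne_zero (hΦc i hi) (pow_ne_zero _ hΦf)
    · intro i hi j hj hij
      by_contra hne
      exact hcon i hi j hj hne hij
  rw [v.map_mul (hΦc i hi) (pow_ne_zero _ hΦf), v.map_mul (hΦc j hj) (pow_ne_zero _ hΦf),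
    v.map_pow hΦf, v.map_pow hΦf, hno' i hi, hno' j hj] at heq
  rw [Finset.mem_image]
  refine ⟨(i, j), Finset.mem_product.2 ⟨hi, hj⟩, ?_⟩
  have hij' : ((j : ℝ) - i) ≠ 0 := by
    intro h0
    have h1 : (i : ℝ) = (j : ℝ) := by linarith
    exact hij (by exact_mod_cast h1)
  rw [div_eq_iff hij']
  linarith

end

end GW

/-- ROW GW.  The Gauss valuation: `W (z - β) = min (v c₀) (v (α - β))`; it is the valuation
`v ∘ Φ c` for generic `c`. -/
theorem exists_gauss [IsAlgClosed k] [IsAlgClosed Ω] (h : Ctx0 k v) {L : IntermediateField k Ω}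
    {z c₀ α : Ω} (hz : Transcendental L z) (hc : c₀ ∈ L) (hc0 : c₀ ≠ 0) (hα : IsAlgebraic L α)
    (hlt : v c₀ < v (z - α)) (hΩ : ∀ g : Ω, IsAlgebraic (adj L z) g) (Φ : k → (Ω ≃ₐ[L] Ω))
    (hΦ : Shift L z c₀ Φ) :
    ∃ W : RVal Ω, (∀ f, f ≠ 0 → IsAlgebraic L f → W f = v f) ∧
      (∀ f ∈ adj ((algebraicClosure L Ω).restrictScalars k) z, f ≠ 0 →
        {c : k | v (Φ c f) ≠ W f}.Finite) ∧
      (∀ β : Ω, IsAlgebraic L β → v (z - β) < v c₀ → W (z - β) = v (z - β)) ∧
      ∀ c : k, W ((z - α) / c₀ - algebraMap k Ω c) = 0 := by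
  classical
  have hinf : Infinite k := IsAlgClosed.instInfinite
  have hzA : ∀ β : Ω, IsAlgebraic L β → z - β ≠ 0 := by
    intro β hβ h0
    rw [sub_eq_zero] at h0
    exact hz (h0 ▸ hβ)
  have hev : ∀ S : Set k, S.Finite → ∀ᶠ c in (hyperfilter k : Filter k), c ∉ S := fun S hS =>
    hyperfilter_le_cofinite hS.compl_mem_cofinite
  have hlim : ∀ f : Ω, ∃ x : ℝ, Tendsto (fun c => v (Φ c f)) (hyperfilter k : Filter k) (𝓝 x) := by
    intro f
    obtain ⟨C, hC⟩ := GW.bounded_val h hz hc hc0 hΦ hΩ f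
    have h1 : ∀ᶠ c in (hyperfilter k : Filter k), v (Φ c f) ∈ (C : Set ℝ) := by
      filter_upwards [hev _ hC] with c hcc
      by_contra h2
      exact hcc h2
    have hK : IsCompact (C : Set ℝ) := C.finite_toSet.isCompact
    obtain ⟨x, -, hx⟩ := isCompact_iff_ultrafilter_le_nhds.1 hK
      ((hyperfilter k).map fun c => v (Φ c f)) (by
        rw [Ultrafilter.coe_map]
        exact le_principal_iff.2 h1)
    exact ⟨x, hx⟩
  choose w hw using hlim
  let W : RVal Ω :=
    { toFun := w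
      map_mul' := by
        intro x y hx hy
        refine tendsto_nhds_unique (hw (x * y)) ?_
        refine ((hw x).add (hw y)).congr fun c => ?_
        rw [map_mul, v.map_mul ((map_ne_zero (Φ c)).2 hx) ((map_ne_zero (Φ c)).2 hy)]
      map_add' := by
        intro x y hx hy hxy
        refine le_of_tendsto_of_tendsto' ((hw x).min (hw y)) (hw (x + y)) fun c => ?_
        rw [map_add]
        exact v.map_add ((map_ne_zero (Φ c)).2 hx) ((map_ne_zero (Φ c)).2 hy)
          (by rw [← map_add]; exact (map_ne_zero (Φ c)).2 hxy) }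
  have hW : ∀ f, W f = w f := fun _ => rfl
  have hconst : ∀ (f : Ω) (x : ℝ), {c : k | v (Φ c f) ≠ x}.Finite → W f = x := by
    intro f x hfin
    rw [hW]
    refine tendsto_nhds_unique (hw f) ?_
    refine tendsto_const_nhds.congr' ?_
    filter_upwards [hev _ hfin] with c hcc
    by_contra h2
    exact hcc (Ne.symm h2)
  refine ⟨W, ?_, ?_, ?_, ?_⟩
  · intro f _ hf
    refine hconst f _ ((Set.finite_empty).subset ?_)
    intro c hcc
    exfalso
    apply hcc
    rw [hΦ.apply_alg c f hf]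
  · intro f hf hf0
    obtain ⟨x, hx⟩ := GW.elem_val h hz hc hc0 hΦ hf hf0
    rw [hconst f x hx]
    exact hx
  · intro β hβ hlt'
    refine hconst _ _ ((GW.factor_val h (hzA β hβ) hc0).subset ?_)
    intro c hcc h1
    apply hcc
    have h8 : Φ c (z - β) = z - β + algebraMap k Ω c * c₀ := by
      rw [map_sub, hΦ.apply_z, hΦ.apply_alg c _ hβ]
      ring
    rw [h8, h1, min_eq_left hlt'.le]
  · intro d
    have hdc : IsAlgebraic L (α + algebraMap k Ω d * c₀) := by
      refine hα.add (D2P.isAlgebraic_of_mem ?_)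
      exact mul_mem (L.algebraMap_mem d) hc
    have hx0 : z - (α + algebraMap k Ω d * c₀) ≠ 0 := hzA _ hdc
    have heq : (z - α) / c₀ - algebraMap k Ω d = (z - (α + algebraMap k Ω d * c₀)) / c₀ := by
      field_simp
      ring
    refine hconst _ _ ((GW.factor_val h hx0 hc0).subset ?_)
    intro c hcc h1
    apply hcc
    have h8 : Φ c (z - (α + algebraMap k Ω d * c₀)) =
        z - (α + algebraMap k Ω d * c₀) + algebraMap k Ω c * c₀ := by
      rw [map_sub, hΦ.apply_z, hΦ.apply_alg c _ hdc]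
      ring
    have h9 : Φ c c₀ = c₀ := hΦ.apply_alg c _ (D2P.isAlgebraic_of_mem hc)
    have h10 : v c₀ ≤ v (z - (α + algebraMap k Ω d * c₀)) := by
      have h11 : z - (α + algebraMap k Ω d * c₀) = (z - α) - algebraMap k Ω d * c₀ := by ring
      have h12 : v.Ge (v c₀) (z - α) := fun _ => hlt.le
      have h13 : v.Ge (0 + v c₀) (algebraMap k Ω d * c₀) := (h.ge d).mul (RVal.ge_self c₀)
      rw [zero_add] at h13
      have h14 := h12.sub h13
      rw [← h11] at h14
      exact h14 hx0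
    have h15 : z - (α + algebraMap k Ω d * c₀) + algebraMap k Ω c * c₀ ≠ 0 := by
      rw [← h8]
      exact (map_ne_zero (Φ c)).2 hx0
    rw [heq, map_div₀, h8, h9, v.map_div h15 hc0, h1, min_eq_right h10, sub_self]

end Pool.Agent.TW
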