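import Pool.Agent.Lib.LUC.Q1

/-!
# TANK W, skeleton N, row MC: change of the model

`X ⊆ K` finite, every element of `A₂` is a product of an element of `B₀` and of powers (with
exponents in `ℤ`) of elements of `X`.  There is a finite set `T₂` depending only on `A, B₀, X`
such that a chart over `A₂` in which the elements of `T₂` and `T` are monomials gives a chart
over `A`.
-/

set_option autoImplicit false

namespace Pool.Agent.TW

open Pool.Agent.H15JM (RVal)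
open Pool.Agent.LU1 (VPos)
open Pool.Agent.LUC (Cl LUs IsMod Par SM QuoIs lv QM)

universe u

variable {Ω : Type u} [Field Ω] {v : RVal Ω}

/-- ROW MC.  Change of the model: `X ⊆ K` finite, every element of `A₂` is a product of an
element of `B₀` and of powers (with exponents in `ℤ`) of elements of `X`.  There is a finite set
`T₂` depending only on `A, B₀, X` such that a chart over `A₂` in which the elements of `T₂` and
`T` are monomials gives a chart over `A`. -/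
theorem exists_change {R : Subring Ω} (hR : ∀ f ∈ R, v.Ge 0 f) {K : Subfield Ω} (A : Finset Ω)
    (hA : ∀ a ∈ A, v.Ge 0 a) (hQ : QuoIs (LUC.adj R (A : Set Ω)) K) (B₀ X : Finset Ω)
    (hB₀ : ∀ b ∈ B₀, b ∈ K) (hX : ∀ x ∈ X, x ∈ K ∧ x ≠ 0) :
    ∃ T₂ : Finset Ω, (∀ t ∈ T₂, t ∈ K ∧ t ≠ 0) ∧ ∀ A₂ : Finset Ω,
      (∀ a ∈ A₂, ∃ b ∈ B₀, ∃ e : Ω → ℤ, a = b * ∏ x ∈ X, x ^ e x) →
      ∀ (T : Set Ω) (n : ℕ) (z : Fin n → Ω) (J : Finset (Fin n)) (O : Subring Ω),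
        IsMod v R (A₂ : Set Ω) (T ∪ T₂) z J O → (∀ f ∈ O, v.Ge 0 f) →
        IsMod v R (A : Set Ω) T z J O := by
  classical
  have hfr : ∀ y : Ω, ∃ nu de : Ω, y ∈ K → (nu ∈ LUC.adj R (A : Set Ω) ∧
      de ∈ LUC.adj R (A : Set Ω) ∧ de ≠ 0 ∧ y = nu / de) := by
    intro y
    by_cases hy : y ∈ K
    · obtain ⟨a, ha, b, hb, hb0, h1⟩ := hQ.2 y hy
      exact ⟨a, b, fun _ => ⟨ha, hb, hb0, h1⟩⟩
    · exact ⟨0, 0, fun h => absurd h hy⟩
  choose nu de hnd using hfr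
  have hnu0 : ∀ x ∈ X, nu x ≠ 0 := by
    intro x hx h0
    apply (hX x hx).2
    rw [(hnd x (hX x hx).1).2.2.2, h0, zero_div]
  refine ⟨B₀.image de ∪ (X.image nu ∪ X.image de) ∪ A.filter (· ≠ 0), ?_, ?_⟩
  · intro t ht
    simp only [Finset.mem_union, Finset.mem_image, Finset.mem_filter] at ht
    rcases ht with (⟨b, hb, rfl⟩ | ⟨x, hx, rfl⟩ | ⟨x, hx, rfl⟩) | ⟨ht, ht0⟩
    · exact ⟨hQ.1 _ (hnd b (hB₀ b hb)).2.1, (hnd b (hB₀ b hb)).2.2.1⟩
    · exact ⟨hQ.1 _ (hnd x (hX x hx).1).1, hnu0 x hx⟩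
    · exact ⟨hQ.1 _ (hnd x (hX x hx).1).2.1, (hnd x (hX x hx).1).2.2.1⟩
    · exact ⟨hQ.1 _ (LUC.mem_adj ht), ht0⟩
  intro A₂ hA₂ T n z J O hM hO0
  have hA' : ∀ a ∈ LUC.adj R (A : Set Ω), v.Ge 0 a :=
    LUC.adj_nonneg hR fun f hf => hA f (Finset.mem_coe.1 hf)
  obtain ⟨g, hg, hg0, hgm, G, hG, hO⟩ := hM.chart
  have hOinv : ∀ f ∈ O, f ≠ 0 → v f = 0 → f⁻¹ ∈ O := by
    intro f hf h0 h1
    rw [hO] at hf ⊢
    exact LUC.lv_inv hf h0 h1
  have hz : ∀ i, z i ≠ 0 := hM.par.ne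
  have hmd : ∀ b ∈ B₀, SM v O z J (de b) := fun b hb => hM.mono _ (Or.inr (by
    simp only [Finset.coe_union, Finset.coe_image, Set.mem_union, Set.mem_image, Finset.mem_coe]
    exact Or.inl (Or.inl ⟨b, hb, rfl⟩)))
  have hmnX : ∀ x ∈ X, SM v O z J (nu x) := fun x hx => hM.mono _ (Or.inr (by
    simp only [Finset.coe_union, Finset.coe_image, Set.mem_union, Set.mem_image, Finset.mem_coe]
    exact Or.inl (Or.inr (Or.inl ⟨x, hx, rfl⟩))))
  have hmdX : ∀ x ∈ X, SM v O z J (de x) := fun x hx => hM.mono _ (Or.inr (by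
    simp only [Finset.coe_union, Finset.coe_image, Set.mem_union, Set.mem_image, Finset.mem_coe]
    exact Or.inl (Or.inr (Or.inr ⟨x, hx, rfl⟩))))
  have hmA : ∀ a ∈ A, a ≠ 0 → SM v O z J a := fun a ha ha0 => hM.mono _ (Or.inr (by
    simp only [Finset.coe_union, Set.mem_union, Finset.mem_coe, Finset.mem_filter]
    exact Or.inr ⟨ha, ha0⟩))
  have hAO : ∀ a ∈ A, a ∈ O := by
    intro a ha
    by_cases ha0 : a = 0
    · rw [ha0]; exact O.zero_mem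
    · exact (hmA a ha ha0).mem hM.par.mem (hA a ha ha0)
  -- the ring `QM`
  have hXQ : ∀ x ∈ X, ∀ m : ℤ, x ^ m ∈ QM v O z J hz (LUC.adj R (A : Set Ω)) hA' := by
    intro x hx m
    have h1 := hnd x (hX x hx).1
    have hx1 : x ∈ QM v O z J hz (LUC.adj R (A : Set Ω)) hA' :=
      ⟨nu x, h1.1, de x, h1.2.1, hmdX x hx, h1.2.2.2⟩
    have hx2 : x⁻¹ ∈ QM v O z J hz (LUC.adj R (A : Set Ω)) hA' :=
      ⟨de x, h1.2.1, nu x, h1.1, hmnX x hx, by
        conv_lhs => rw [h1.2.2.2]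
        rw [inv_div]⟩
    obtain ⟨m', rfl | rfl⟩ := m.eq_nat_or_neg
    · rw [zpow_natCast]
      exact Subring.pow_mem _ hx1 m'
    · rw [zpow_neg, zpow_natCast, ← inv_pow]
      exact Subring.pow_mem _ hx2 m'
  have hA₂Q : ∀ a ∈ A₂, a ∈ QM v O z J hz (LUC.adj R (A : Set Ω)) hA' := by
    intro a ha
    obtain ⟨b, hb, e, rfl⟩ := hA₂ a ha
    have h1 := hnd b (hB₀ b hb)
    refine Subring.mul_mem _ ⟨nu b, h1.1, de b, h1.2.1, hmd b hb, h1.2.2.2⟩ ?_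
    exact Subring.prod_mem _ fun x hx => hXQ x hx (e x)
  have hadjQ : LUC.adj R (A₂ : Set Ω) ≤ QM v O z J hz (LUC.adj R (A : Set Ω)) hA' :=
    LUC.adj_le ((LUC.base_le_adj R _).trans LUC.le_QM) fun f hf => hA₂Q f (Finset.mem_coe.1 hf)
  have hadjO : LUC.adj R (A₂ : Set Ω) ≤ O := by
    rw [hO]
    exact (LUC.adj_mono le_rfl Set.subset_union_left).trans (LUC.le_lv v _)
  have hginv : g⁻¹ ∈ QM v O z J hz (LUC.adj R (A : Set Ω)) hA' :=
    LUC.qm_inv hOinv (hadjQ hg) (hO0 g (hadjO hg) hg0) hgm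
  refine ⟨hM.par, ?_, fun t ht => hM.mono t (Or.inl ht)⟩
  refine LUC.chart_of (hz := hz) hOinv hO0 A hA' hAO (A₂ ∪ G.image fun x => x / g) ?_ ?_
  · rw [hO, Finset.coe_union, Finset.coe_image]
  · intro f hf
    rcases Finset.mem_union.1 hf with hf | hf
    · exact hA₂Q f hf
    · obtain ⟨x, hx, rfl⟩ := Finset.mem_image.1 hf
      rw [div_eq_mul_inv]
      exact Subring.mul_mem _ (hadjQ (hG x hx).1) hginv

end Pool.Agent.TW
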