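import Pool.Agent.Lib.TWN.NBa
import Pool.Agent.Lib.TWN.NB2

/-!
# TANK W, row NB: fields without bounded derivations are henselian rational
-/

set_option autoImplicit false

namespace Pool.Agent.TW

open Pool.Agent.H15JM (RVal)
open Pool.Agent.LU1 (VPos adj)
open Pool.Agent.D2 (Ctx0)
open Pool.Agent.D2P

universe u

variable {k Ω : Type u} [Field k] [Field Ω] [Algebra k Ω] {v : RVal Ω} {r : ℕ}

/-- ROW NB. -/
theorem hrone_of_not_bd (p : ℕ) [Fact p.Prime] [CharP k p] [IsAlgClosed k] [IsAlgClosed Ω]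
    (h : Ctx k v r) {E : IntermediateField k Ω} (hE : E.FG) (hfull : Full v E)
    (hΩ : ∀ g : Ω, IsAlgebraic E g) (hbd : ¬ BD p v E) :
    ∃ (L : IntermediateField k Ω) (z : Ω), L.FG ∧ Full v L ∧ Transcendental L z ∧
      LimAlg v L z ∧ hen v E = hen v (adj L z) :=
  hrone_of_not_bd_of p (fun hpos _ _ hw hθ hcl hΩ' =>
    exists_gen_of_limAlg h.toCtx0 hpos hw hθ hcl hΩ') h hE hfull hΩ hbd

end Pool.Agent.TW
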