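import Pool.Agent.Lib.TWN.Defs
import Pool.Agent.Lib.TW.BB

/-!
# TANK W, row NB1: `∂/∂t_i` is bounded if `t_i` is no limit of elements algebraic over `k(t_j : j ≠ i)`
-/

set_option autoImplicit false

open Polynomial

namespace Pool.Agent.TW

open Pool.Agent.H15JM (RVal)
open Pool.Agent.LU1 (VPos adj)
open Pool.Agent.D2 (Ctx0)
open Pool.Agent.D2P (hen)

universe u

variable {k Ω : Type u} [Field k] [Field Ω] [Algebra k Ω] {v : RVal Ω} {r : ℕ}

omit [Algebra k Ω] [Field k] in
theorem ge_multiset {c : ℝ} (s : Multiset Ω) (h : ∀ x ∈ s, v.Ge c x) : v.Ge c s.sum := by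
  induction s using Multiset.induction_on with
  | empty => rw [Multiset.sum_zero]; exact RVal.Ge.zero
  | cons a s ih =>
    rw [Multiset.sum_cons]
    exact (h a (Multiset.mem_cons_self _ _)).add
      (ih fun x hx => h x (Multiset.mem_cons_of_mem hx))

/-- The derivative of a function of `z` in terms of the distance of `z` to the algebraic elements.-/
theorem ge_derivative [IsAlgClosed Ω] {L : IntermediateField k Ω} {z : Ω} {C : ℝ}
    (hz : ∀ α : Ω, IsAlgebraic L α → ¬ v.Ge C (z - α)) (g : L[X]) {c : ℝ}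
    (h : v.Ge c (aeval z g)) : v.Ge (c - C) (aeval z (derivative g)) := by
  by_cases hg : g = 0
  · rw [hg, derivative_zero, map_zero]
    exact RVal.Ge.zero
  have hz0 : aeval z g ≠ 0 := by
    intro h0
    refine hz z ⟨g, hg, h0⟩ ?_
    rw [sub_self]
    exact RVal.Ge.zero
  have h1 := (IsAlgClosed.splits (g.map (algebraMap L Ω))).eval_derivative_eq_eval_mul_sum
    (x := z) (by rwa [eval_map_algebraMap])
  rw [derivative_map, eval_map_algebraMap, eval_map_algebraMap] at h1
  rw [h1]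
  refine (h.mul (d := -C) (ge_multiset _ ?_)).mono (by linarith)
  intro x hx
  obtain ⟨a, ha, rfl⟩ := Multiset.mem_map.1 hx
  have ha' : IsAlgebraic L a := by
    refine ⟨g, hg, ?_⟩
    have := isRoot_of_mem_roots ha
    rwa [IsRoot.def, eval_map_algebraMap] at this
  have h2 := hz a ha'
  have h3 : z - a ≠ 0 := fun h0 => h2 (by rw [h0]; exact RVal.Ge.zero)
  have h4 : v (z - a) < C := by
    by_contra h4
    exact h2 fun _ => not_lt.1 h4
  intro _
  rw [one_div, v.map_inv h3]
  linarith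

/-- Polynomials in the `t j` as polynomials in `t i`. -/
theorem exists_uni {n : ℕ} (t : Fin n → Ω) (i : Fin n) (G : MvPolynomial (Fin n) k) :
    ∃ g : (IntermediateField.adjoin k (t '' {j | j ≠ i}))[X],
      aeval (t i) g = MvPolynomial.aeval t G ∧
      aeval (t i) (derivative g) = MvPolynomial.aeval t (MvPolynomial.pderiv i G) := by
  classical
  induction G using MvPolynomial.induction_on with
  | C a =>
    refine ⟨C (algebraMap k _ a), ?_, ?_⟩
    · rw [aeval_C, MvPolynomial.aeval_C]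
      rfl
    · rw [derivative_C, map_zero, MvPolynomial.pderiv_C, map_zero]
  | add P Q hP hQ =>
    obtain ⟨f, hf1, hf2⟩ := hP
    obtain ⟨g, hg1, hg2⟩ := hQ
    exact ⟨f + g, by rw [map_add, map_add, hf1, hg1],
      by rw [derivative_add, map_add, map_add, map_add, hf2, hg2]⟩
  | mul_X P j hP =>
    obtain ⟨f, hf1, hf2⟩ := hP
    by_cases hj : j = i
    · subst hj
      refine ⟨f * X, by rw [map_mul, map_mul, aeval_X, MvPolynomial.aeval_X, hf1], ?_⟩
      rw [derivative_mul, derivative_X, mul_one, map_add, map_mul, aeval_X, hf2,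
        MvPolynomial.pderiv_mul, MvPolynomial.pderiv_X_self, mul_one, map_add, map_mul,
        MvPolynomial.aeval_X, hf1]
    · have hmem : t j ∈ IntermediateField.adjoin k (t '' {j | j ≠ i}) :=
        IntermediateField.subset_adjoin _ _ ⟨j, hj, rfl⟩
      refine ⟨f * C ⟨t j, hmem⟩, ?_, ?_⟩
      · rw [map_mul, map_mul, aeval_C, MvPolynomial.aeval_X, hf1]
        rfl
      · rw [derivative_mul, derivative_C, mul_zero, add_zero, map_mul, aeval_C, hf2,
          MvPolynomial.pderiv_mul, MvPolynomial.pderiv_X_of_ne hj, mul_zero, add_zero,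
          map_mul, MvPolynomial.aeval_X]
        rfl

/-- The partial derivatives of `∑ a_α P_α^p X^α`. -/
theorem X_mul_pderiv (p : ℕ) [Fact p.Prime] [CharP k p] {n : ℕ}
    (P : (Fin n → Fin p) → MvPolynomial (Fin n) k) (a : (Fin n → Fin p) → k) (i : Fin n) :
    MvPolynomial.X i * MvPolynomial.pderiv i
      (∑ α, MvPolynomial.C (a α) * (P α ^ p * ∏ j, (MvPolynomial.X j) ^ (α j : ℕ))) =
    ∑ α, MvPolynomial.C (((α i : ℕ) : k) * a α) *
      (P α ^ p * ∏ j, (MvPolynomial.X j) ^ (α j : ℕ)) := by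
  classical
  rw [map_sum, Finset.mul_sum]
  refine Finset.sum_congr rfl fun α _ => ?_
  have h1 : MvPolynomial.pderiv i (P α ^ p) = 0 := by
    rw [MvPolynomial.pderiv_pow, CharP.cast_eq_zero, zero_mul, zero_mul]
  have h2 : (∏ j, (MvPolynomial.X j : MvPolynomial (Fin n) k) ^ (α j : ℕ)) =
      MvPolynomial.X i ^ (α i : ℕ) *
        ∏ j ∈ Finset.univ.erase i, (MvPolynomial.X j) ^ (α j : ℕ) :=
    (Finset.mul_prod_erase _ _ (Finset.mem_univ i)).symm
  have h3 : MvPolynomial.pderiv i
      (∏ j ∈ Finset.univ.erase i, (MvPolynomial.X j : MvPolynomial (Fin n) k) ^ (α j : ℕ)) = 0 := by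
    generalize hs : Finset.univ.erase i = s
    have hs' : i ∉ s := by rw [← hs]; exact Finset.notMem_erase i _
    clear hs
    induction s using Finset.induction_on with
    | empty => rw [Finset.prod_empty, MvPolynomial.pderiv_one]
    | insert b s hb ih =>
      rw [Finset.prod_insert hb, MvPolynomial.pderiv_mul,
        ih (fun h => hs' (Finset.mem_insert_of_mem h)), MvPolynomial.pderiv_pow,
        MvPolynomial.pderiv_X_of_ne (fun h => hs' (by rw [← h]; exact Finset.mem_insert_self _ _))]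
      ring
  have h4 : MvPolynomial.X i * MvPolynomial.pderiv i
      ((MvPolynomial.X i : MvPolynomial (Fin n) k) ^ (α i : ℕ)) =
      ((α i : ℕ) : MvPolynomial (Fin n) k) * MvPolynomial.X i ^ (α i : ℕ) := by
    rw [MvPolynomial.pderiv_pow, MvPolynomial.pderiv_X_self]
    rcases Nat.eq_zero_or_pos (α i : ℕ) with h | h
    · rw [h]; simp
    · obtain ⟨m, hm⟩ := Nat.exists_eq_succ_of_ne_zero h.ne'
      rw [hm]
      simp only [Nat.succ_sub_one, Nat.succ_eq_add_one, pow_succ]
      ring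
  rw [h2, MvPolynomial.pderiv_mul, MvPolynomial.pderiv_mul, MvPolynomial.pderiv_mul, h1, h3,
    MvPolynomial.pderiv_C, map_mul, map_natCast]
  linear_combination (MvPolynomial.C (a α) * P α ^ p *
    ∏ j ∈ Finset.univ.erase i, (MvPolynomial.X j : MvPolynomial (Fin n) k) ^ (α j : ℕ)) * h4

/-- Killing the other monomials by the operators `X_i ∂/∂X_i - l`. -/
theorem ge_kill [IsAlgClosed Ω] (p : ℕ) [Fact p.Prime] [CharP k p] (h : Ctx0 k v) {n : ℕ}
    {t : Fin n → Ω} {C : Fin n → ℝ}
    (hC : ∀ i, ∀ α : Ω, IsAlgebraic (IntermediateField.adjoin k (t '' {j | j ≠ i})) α →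
      ¬ v.Ge (C i) (t i - α)) {C₁ : ℝ} (hC₁ : 0 ≤ C₁) (hC₁' : ∀ i, C i - v (t i) ≤ C₁)
    (P : (Fin n → Fin p) → MvPolynomial (Fin n) k) {c : ℝ}
    (hc : v.Ge c (MvPolynomial.aeval t (∑ α, P α ^ p * ∏ j, (MvPolynomial.X j) ^ (α j : ℕ))))
    (T : Finset (Fin n × Fin p)) :
    v.Ge (c - T.card * C₁) (MvPolynomial.aeval t
      (∑ α : Fin n → Fin p, MvPolynomial.C (∏ x ∈ T, (((α x.1 : ℕ) : k) - ((x.2 : ℕ) : k))) *
        (P α ^ p * ∏ j, (MvPolynomial.X j) ^ (α j : ℕ)))) := by
  classical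
  induction T using Finset.induction_on with
  | empty =>
    simp only [Finset.prod_empty, map_one, one_mul, Finset.card_empty, Nat.cast_zero, zero_mul,
      sub_zero]
    exact hc
  | insert x T hx ih =>
    set a : (Fin n → Fin p) → k := fun α => ∏ x ∈ T, (((α x.1 : ℕ) : k) - ((x.2 : ℕ) : k))
    set G : MvPolynomial (Fin n) k := ∑ α, MvPolynomial.C (a α) *
      (P α ^ p * ∏ j, (MvPolynomial.X j) ^ (α j : ℕ)) with hG
    have h1 : ∑ α : Fin n → Fin p,
        MvPolynomial.C (∏ x ∈ insert x T, (((α x.1 : ℕ) : k) - ((x.2 : ℕ) : k))) *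
        (P α ^ p * ∏ j, (MvPolynomial.X j) ^ (α j : ℕ)) =
        MvPolynomial.X x.1 * MvPolynomial.pderiv x.1 G -
          MvPolynomial.C ((x.2 : ℕ) : k) * G := by
      rw [hG, X_mul_pderiv p P a x.1, Finset.mul_sum, ← Finset.sum_sub_distrib]
      refine Finset.sum_congr rfl fun α _ => ?_
      rw [Finset.prod_insert hx, map_mul, map_sub, map_mul]
      ring
    rw [h1, map_sub, map_mul, map_mul, MvPolynomial.aeval_X, MvPolynomial.aeval_C,
      Finset.card_insert_of_notMem hx]
    push_cast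
    obtain ⟨g, hg1, hg2⟩ := exists_uni t x.1 G
    refine RVal.Ge.sub ?_ ?_
    · rw [← hg2]
      have h2 := ge_derivative (hC x.1) g (c := c - T.card * C₁) (by rw [hg1]; exact ih)
      refine ((RVal.ge_self (t x.1)).mul h2).mono ?_
      have := hC₁' x.1
      linarith
    · have h3 := h.ge ((x.2 : ℕ) : k)
      rw [map_natCast] at h3
      refine (h3.mul ih).mono ?_
      linarith

/-- ROW NB1.  If no `t i` is a limit of elements algebraic over `k(t_j : j ≠ i)`, the derivations
`∂/∂t_i` of `k(t)` are bounded, hence `k(t)` has a `p`-basis of bounded distortion. -/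
theorem bd_of_not_limAlg (p : ℕ) [Fact p.Prime] [CharP k p] [IsAlgClosed k] [IsAlgClosed Ω]
    (h : Ctx0 k v) {n : ℕ} {t : Fin n → Ω} (ht : AlgebraicIndependent k t)
    (hc : ∀ i, ¬ LimAlg v (IntermediateField.adjoin k (t '' {j | j ≠ i})) (t i)) :
    BD p v (IntermediateField.adjoin k (Set.range t)) := by
  classical
  have hp := (Fact.out : p.Prime)
  have hC : ∀ i, ∃ C : ℝ, ∀ α : Ω,
      IsAlgebraic (IntermediateField.adjoin k (t '' {j | j ≠ i})) α → ¬ v.Ge C (t i - α) := by
    intro i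
    by_contra hcon
    refine hc i fun C => ?_
    by_contra h1
    exact hcon ⟨C, fun α hα h2 => h1 ⟨α, hα, h2⟩⟩
  choose C hC using hC
  set C₁ : ℝ := ∑ i, |C i - v (t i)|
  have hC₁ : 0 ≤ C₁ := Finset.sum_nonneg fun i _ => abs_nonneg _
  have hC₁' : ∀ i, C i - v (t i) ≤ C₁ := fun i =>
    (le_abs_self _).trans (Finset.single_le_sum (f := fun i => |C i - v (t i)|)
      (fun i _ => abs_nonneg _) (Finset.mem_univ i))
  refine ⟨n, t, P4bAux.pbasis_adj p ht, (n * p : ℕ) * C₁, fun c hcK h0 α₀ hα₀ => ?_⟩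
  choose P Q hQ hPQ using fun α => P4bAux.exists_frac ht (hcK α)
  set R : MvPolynomial (Fin n) k := ∏ α, Q α with hR
  have hR0 : MvPolynomial.aeval t R ≠ 0 := by
    rw [hR, map_prod]
    exact Finset.prod_ne_zero_iff.2 fun α _ => hQ α
  set P' : (Fin n → Fin p) → MvPolynomial (Fin n) k := fun α => P α * ∏ β ∈ Finset.univ.erase α, Q β
  have hP' : ∀ α, MvPolynomial.aeval t (P' α) = c α * MvPolynomial.aeval t R := by
    intro α
    have h1 : MvPolynomial.aeval t R = MvPolynomial.aeval t (Q α) *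
        MvPolynomial.aeval t (∏ β ∈ Finset.univ.erase α, Q β) := by
      rw [← map_mul, Finset.mul_prod_erase _ _ (Finset.mem_univ α)]
    have h2 := hPQ α
    rw [h1]
    simp only [P', map_mul]
    rw [h2]
    field_simp [hQ α]
  have hmon : ∀ α : Fin n → Fin p,
      MvPolynomial.aeval t (∏ j, (MvPolynomial.X j : MvPolynomial (Fin n) k) ^ (α j : ℕ)) =
        mon t α := by
    intro α
    rw [map_prod, mon]
    exact Finset.prod_congr rfl fun j _ => by rw [map_pow, MvPolynomial.aeval_X]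
  have hG : MvPolynomial.aeval t (∑ α, P' α ^ p * ∏ j, (MvPolynomial.X j) ^ (α j : ℕ)) =
      pcomb t c * MvPolynomial.aeval t R ^ p := by
    rw [map_sum, pcomb, Finset.sum_mul]
    refine Finset.sum_congr rfl fun α _ => ?_
    rw [map_mul, map_pow, hP', hmon]
    ring
  set T : Finset (Fin n × Fin p) := Finset.univ.filter fun x => α₀ x.1 ≠ x.2 with hT
  have h1 := ge_kill p h hC hC₁ hC₁' P' (c := v (pcomb t c * MvPolynomial.aeval t R ^ p))
    (by rw [hG]; exact RVal.ge_self _) T
  rw [Finset.sum_eq_single α₀] at h1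
  · rw [map_mul, MvPolynomial.aeval_C, map_mul, map_pow, hP', hmon] at h1
    set u : k := ∏ x ∈ T, (((α₀ x.1 : ℕ) : k) - ((x.2 : ℕ) : k))
    have hu : u ≠ 0 := by
      refine Finset.prod_ne_zero_iff.2 fun x hx => ?_
      have h2 := (Finset.mem_filter.1 hx).2
      rw [sub_ne_zero]
      intro h3
      exact h2 (Fin.ext (CharP.natCast_injOn_Iio k p (Set.mem_Iio.2 (α₀ x.1).2)
        (Set.mem_Iio.2 x.2.2) h3))
    have hu' : algebraMap k Ω u ≠ 0 := by
      rwa [Ne, map_eq_zero]
    have hRp := pow_ne_zero p hR0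
    have h2 : algebraMap k Ω u * ((c α₀ * MvPolynomial.aeval t R) ^ p * mon t α₀) =
        algebraMap k Ω u * ((c α₀ ^ p * mon t α₀) * MvPolynomial.aeval t R ^ p) := by ring
    rw [h2] at h1
    have h3 := h1 (mul_ne_zero hu' (mul_ne_zero hα₀ hRp))
    rw [v.map_mul hu' (mul_ne_zero hα₀ hRp), h.triv u hu, v.map_mul hα₀ hRp,
      v.map_mul h0 hRp] at h3
    have h4 : (T.card : ℝ) ≤ (n * p : ℕ) := by
      have h5 : T.card ≤ n * p := by
        refine (Finset.card_le_univ T).trans ?_
        simp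
      exact_mod_cast h5
    have h6 := mul_le_mul_of_nonneg_right h4 hC₁
    linarith
  · intro β _ hβ
    obtain ⟨i, hi⟩ : ∃ i, β i ≠ α₀ i := by
      by_contra hcon
      exact hβ (funext fun i => by_contra fun hi => hcon ⟨i, hi⟩)
    rw [Finset.prod_eq_zero (i := (i, β i)) (Finset.mem_filter.2 ⟨Finset.mem_univ _, hi.symm⟩)
      (sub_self _), map_zero, zero_mul]
  · intro h2
    exact absurd (Finset.mem_univ _) h2

end Pool.Agent.TW
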