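import Pool.Agent.Lib.TWN.Defs

/-!
# TANK W, skeleton N, row TRN: transport of a chart by an automorphism
-/

set_option autoImplicit false

namespace Pool.Agent.TW

open Pool.Agent.H15JM (RVal)
open Pool.Agent.LU1 (VPos)
open Pool.Agent.LUC (Cl LUs IsMod Par SM QuoIs lv IP)

universe u

variable {Ω : Type u} [Field Ω] {v : RVal Ω}

theorem adj_map (σ : Ω ≃+* Ω) {R : Subring Ω} (hσ : ∀ f ∈ R, σ f = f) (F : Set Ω) :
    (LUC.adj R F).map (σ : Ω →+* Ω) = LUC.adj R (σ '' F) := by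
  rw [LUC.adj, LUC.adj, RingHom.map_closure, Set.image_union]
  have h1 : (σ : Ω →+* Ω) '' (R : Set Ω) = (R : Set Ω) := by
    ext f
    constructor
    · rintro ⟨g, hg, rfl⟩
      have h2 : (σ : Ω →+* Ω) g = g := hσ g hg
      rw [h2]
      exact hg
    · intro hf
      exact ⟨f, hf, hσ f hf⟩
  rw [h1]
  rfl

theorem lv_map (σ : Ω ≃+* Ω) (B : Subring Ω) :
    (lv (pull v σ) B).map (σ : Ω →+* Ω) = lv v (B.map (σ : Ω →+* Ω)) := by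
  ext f
  constructor
  · rintro ⟨_, ⟨a, ha, b, hb, hb0, hvb, rfl⟩, rfl⟩
    refine ⟨σ a, ⟨a, ha, rfl⟩, σ b, ⟨b, hb, rfl⟩, (map_ne_zero σ).2 hb0, ?_, ?_⟩
    · exact hvb
    · exact map_div₀ (σ : Ω →+* Ω) a b
  · rintro ⟨_, ⟨a, ha, rfl⟩, _, ⟨b, hb, rfl⟩, hb0, hvb, rfl⟩
    refine ⟨a / b, ⟨a, ha, b, hb, ?_, hvb, rfl⟩, map_div₀ (σ : Ω →+* Ω) a b⟩
    rintro rfl
    exact hb0 (map_zero _)

theorem ip_map (σ : Ω ≃+* Ω) {B : Subring Ω} {n : ℕ} {z : Fin n → Ω} (hz : ∀ i, z i ∈ B) {f : Ω}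
    (h : IP B z 1 f) : IP (B.map (σ : Ω →+* Ω)) (fun i => σ (z i)) 1 (σ f) := by
  obtain ⟨a, ha, rfl⟩ := (LUC.IP.one_iff hz).1 h
  have hz' : ∀ i, σ (z i) ∈ B.map (σ : Ω →+* Ω) := fun i => ⟨z i, hz i, rfl⟩
  refine (LUC.IP.one_iff hz').2 ⟨fun i => σ (a i), fun i => ⟨a i, ha i, rfl⟩, ?_⟩
  rw [map_sum]
  exact Finset.sum_congr rfl fun i _ => map_mul σ _ _

theorem sm_map (σ : Ω ≃+* Ω) {O : Subring Ω} {n : ℕ} {z : Fin n → Ω} {J : Finset (Fin n)} {t : Ω}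
    (h : SM (pull v σ) O z J t) :
    SM v (O.map (σ : Ω →+* Ω)) (fun i => σ (z i)) J (σ t) := by
  obtain ⟨e, u, hu, hu0, hvu, ht, h1, h2, h3, h4⟩ := h
  refine ⟨e, σ u, ⟨u, hu, rfl⟩, (map_ne_zero σ).2 hu0, hvu, ?_, h1, h2, h3, h4⟩
  rw [ht, map_mul, map_prod]
  congr 1
  exact Finset.prod_congr rfl fun i _ => map_zpow₀ σ _ _

/-- ROW TRN.  Transport by an automorphism. -/
theorem isMod_map {σ : Ω ≃+* Ω} {R : Subring Ω} (hσ : ∀ f ∈ R, σ f = f) {A T : Set Ω} {n : ℕ}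
    {z : Fin n → Ω} {J : Finset (Fin n)} {O : Subring Ω} (hM : IsMod (pull v σ) R A T z J O) :
    IsMod v R (σ '' A) (σ '' T) (fun i => σ (z i)) J (O.map (σ : Ω →+* Ω)) := by
  classical
  obtain ⟨g, hg, hg0, hgm, G, hG, hO⟩ := hM.chart
  refine ⟨⟨fun i => ⟨z i, hM.par.mem i, rfl⟩, fun i => (map_ne_zero σ).2 (hM.par.ne i),
    hM.par.pos, ?_⟩, ?_, ?_⟩
  · rintro _ ⟨f, hf, rfl⟩ hpos
    refine ip_map σ hM.par.mem (hM.par.gen f hf fun h0 => ?_)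
    exact hpos ((map_ne_zero σ).2 h0)
  · have key : ∀ x : Ω, x ∈ LUC.adj R A → σ x ∈ LUC.adj R (σ '' A) := by
      intro x hx
      rw [← adj_map σ hσ]
      exact ⟨x, hx, rfl⟩
    refine ⟨σ g, key g hg, (map_ne_zero σ).2 hg0, sm_map σ hgm, G.image σ, ?_, ?_⟩
    · intro x hx
      obtain ⟨y, hy, rfl⟩ := Finset.mem_image.1 hx
      refine ⟨key y (hG y hy).1, fun h0 => ?_⟩
      have hy0 : y ≠ 0 := by
        rintro rfl
        exact h0 (map_zero σ)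
      exact (hG y hy).2 hy0
    · rw [hO, lv_map, adj_map σ hσ, Set.image_union]
      congr 3
      ext x
      constructor
      · rintro ⟨_, ⟨y, hy, rfl⟩, rfl⟩
        exact ⟨σ y, Finset.mem_coe.2 (Finset.mem_image_of_mem σ hy), (map_div₀ σ y g).symm⟩
      · rintro ⟨x, hx, rfl⟩
        obtain ⟨y, hy, rfl⟩ := Finset.mem_image.1 (Finset.mem_coe.1 hx)
        exact ⟨y / g, ⟨y, hy, rfl⟩, map_div₀ σ y g⟩
  · rintro _ ⟨t, ht, rfl⟩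
    exact sm_map σ (hM.mono t ht)

/-- ROW TRN.  `IsMod` depends only on the ring `R[A]`. -/
theorem isMod_congr {R : Subring Ω} {A A' T : Set Ω} {n : ℕ} {z : Fin n → Ω}
    {J : Finset (Fin n)} {O : Subring Ω} (hA : LUC.adj R A = LUC.adj R A')
    (hM : IsMod v R A T z J O) : IsMod v R A' T z J O := by
  obtain ⟨g, hg, hg0, hgm, G, hG, hO⟩ := hM.chart
  refine ⟨hM.par, ⟨g, hA ▸ hg, hg0, hgm, G, fun x hx => ⟨hA ▸ (hG x hx).1, (hG x hx).2⟩, ?_⟩,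
    hM.mono⟩
  rw [hO, ← LUC.adj_adj, ← LUC.adj_adj, hA]

end Pool.Agent.TW
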