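import Pool.Agent.Lib.TWN.WTa
import Pool.Agent.Lib.TWN.GW

/-!
# TANK W, row WT: the W-trick
-/

set_option autoImplicit false

namespace Pool.Agent.TW

open Pool.Agent.H15JM (RVal)
open Pool.Agent.LU1 (VPos adj)
open Pool.Agent.LUC (LUs)
open Pool.Agent.D2 (Ctx0)

universe u

variable {k Ω : Type u} [Field k] [Field Ω] [Algebra k Ω] {v : RVal Ω}

/-- ROW WT.  The W-trick. -/
theorem lus_of_gauss [IsAlgClosed k] [IsAlgClosed Ω] (h : Ctx0 k v) {L : IntermediateField k Ω}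
    (hL : L.FG) (hpos : ∃ a ∈ L, a ≠ 0 ∧ 0 < v a) {z : Ω} (hz : Transcendental L z)
    (hΩ : ∀ g : Ω, IsAlgebraic (adj L z) g) (hroom : Room v L z)
    (hW : ∀ W : RVal Ω, (∀ f, f ≠ 0 → IsAlgebraic L f → W f = v f) →
      (∃ u : Ω, ∀ c : k, W (u - algebraMap k Ω c) = 0 ∧ u ≠ algebraMap k Ω c) →
      LUs W (algebraMap k Ω).range (adj L z).toSubfield) :
    LUs v (algebraMap k Ω).range (adj L z).toSubfield :=
  lus_of_gauss_of h hL hpos hz hΩ hroom (fun hz hc hΩ => exists_shift hz hc hΩ)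
    (fun hz hc hc0 hα hlt hΩ Φ hΦ => exists_gauss h hz hc hc0 hα hlt hΩ Φ hΦ) hW

end Pool.Agent.TW
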